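import Mathlib

/-!
Basic tools for MP_6383d0_co: colourings of vertex subsets, induced P_4 + l P_1.
-/

namespace Pool.Agent.Lib.MP_6383d0_co

open SimpleGraph Finset

/-- The graph P_4 + l P_1. -/
abbrev P4l (l : ℕ) : SimpleGraph (Fin 4 ⊕ Fin l) := pathGraph 4 ⊕g (⊥ : SimpleGraph (Fin l))

variable {V : Type*}

/-- The vertices of S can be properly coloured with the colours 0, ..., m-1. -/
def ColOn (G : SimpleGraph V) (S : Set V) (m : ℕ) : Prop :=
  ∃ f : V → ℕ, (∀ u ∈ S, f u < m) ∧ ∀ u ∈ S, ∀ v ∈ S, G.Adj u v → f u ≠ f v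

/-- No clique with k vertices inside S. -/
def KFree (G : SimpleGraph V) (S : Set V) (k : ℕ) : Prop :=
  ∀ T : Finset V, (T : Set V) ⊆ S → ¬ G.IsNClique k T

/-- The vertices a, b, c, d induce the path a - b - c - d. -/
structure IsP4 (G : SimpleGraph V) (a b c d : V) : Prop where
  ab : G.Adj a b
  bc : G.Adj b c
  cd : G.Adj c d
  ac : ¬ G.Adj a c
  ad : ¬ G.Adj a d
  bd : ¬ G.Adj b d

/-- No induced P_4 + l P_1 inside S. -/
def PFree (G : SimpleGraph V) (S : Set V) (l : ℕ) : Prop :=
  ∀ a b c d, a ∈ S → b ∈ S → c ∈ S → d ∈ S → IsP4 G a b c d →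
    ∀ T : Finset V, (T : Set V) ⊆ S → G.IsIndepSet (T : Set V) →
      (∀ x ∈ T, ¬ G.Adj a x ∧ ¬ G.Adj b x ∧ ¬ G.Adj c x ∧ ¬ G.Adj d x) → T.card < l

/-- All independent sets inside S have fewer than t vertices. -/
def ALt (G : SimpleGraph V) (S : Set V) (t : ℕ) : Prop :=
  ∀ T : Finset V, (T : Set V) ⊆ S → G.IsIndepSet (T : Set V) → T.card < t

theorem ColOn.mono {G : SimpleGraph V} {S T : Set V} {m n : ℕ} (h : ColOn G T m)
    (hST : S ⊆ T) (hmn : m ≤ n) : ColOn G S n := by
  obtain ⟨f, hf, hf'⟩ := h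
  exact ⟨f, fun u hu => (hf u (hST hu)).trans_le hmn,
    fun u hu v hv => hf' u (hST hu) v (hST hv)⟩

theorem ColOn.union {G : SimpleGraph V} {S T : Set V} {m n : ℕ} (hS : ColOn G S m)
    (hT : ColOn G T n) : ColOn G (S ∪ T) (m + n) := by
  classical
  obtain ⟨f, hf, hf'⟩ := hS
  obtain ⟨g, hg, hg'⟩ := hT
  refine ⟨fun v => if v ∈ S then f v else m + g v, ?_, ?_⟩
  · intro u hu
    by_cases h : u ∈ S
    · simp only [h, if_true]
      exact (hf u h).trans_le (Nat.le_add_right _ _)
    · have hu' : u ∈ T := by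
        rcases hu with hu | hu
        · exact absurd hu h
        · exact hu
      simp only [h, if_false]
      have := hg u hu'
      omega
  · intro u hu v hv huv
    by_cases h : u ∈ S <;> by_cases h' : v ∈ S
    · simp only [h, h', if_true]
      exact hf' u h v h' huv
    · simp only [h, h', if_true, if_false]
      have := hf u h
      omega
    · simp only [h, h', if_true, if_false]
      have := hf v h'
      omega
    · simp only [h, h', if_false]
      have hu' : u ∈ T := by
        rcases hu with hu | hu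
        · exact absurd hu h
        · exact hu
      have hv' : v ∈ T := by
        rcases hv with hv | hv
        · exact absurd hv h'
        · exact hv
      have := hg' u hu' v hv' huv
      omega

theorem colOn_univ_iff {G : SimpleGraph V} {m : ℕ} : ColOn G Set.univ m ↔ G.Colorable m := by
  constructor
  · rintro ⟨f, hf, hf'⟩
    exact ⟨Coloring.mk (fun v => (⟨f v, hf v trivial⟩ : Fin m)) (by
      intro v w hvw h
      exact hf' v trivial w trivial hvw (congrArg Fin.val h))⟩
  · rintro ⟨c⟩
    exact ⟨fun v => (c v).val, fun u _ => (c u).isLt, fun u _ v _ huv h =>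
      c.valid huv (Fin.ext h)⟩

theorem colOn_of_induce {G : SimpleGraph V} {S : Set V} {m : ℕ}
    (h : (G.induce S).Colorable m) : ColOn G S m := by
  classical
  obtain ⟨c⟩ := h
  refine ⟨fun v => if hv : v ∈ S then (c ⟨v, hv⟩).val else 0, ?_, ?_⟩
  · intro u hu
    simp only [hu, dif_pos]
    exact (c ⟨u, hu⟩).isLt
  · intro u hu v hv huv
    simp only [hu, hv, dif_pos]
    intro h
    exact c.valid (show (G.induce S).Adj ⟨u, hu⟩ ⟨v, hv⟩ from huv) (Fin.ext h)

theorem ColOn.induce {G : SimpleGraph V} {S : Set V} {m : ℕ}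
    (h : ColOn G S m) : (G.induce S).Colorable m := by
  obtain ⟨f, hf, hf'⟩ := h
  exact ⟨Coloring.mk (fun v => (⟨f v, hf v v.2⟩ : Fin m)) (by
    intro v w hvw h
    exact hf' v v.2 w w.2 hvw (congrArg Fin.val h))⟩

theorem colOn_indep {G : SimpleGraph V} {S : Set V} (h : ∀ u ∈ S, ∀ v ∈ S, ¬ G.Adj u v) :
    ColOn G S 1 :=
  ⟨fun _ => 0, fun _ _ => Nat.one_pos, fun u hu v hv huv => absurd huv (h u hu v hv)⟩

theorem colOn_empty {G : SimpleGraph V} {S : Set V} (h : S = ∅) (m : ℕ) :
    ColOn G S m := by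
  subst h
  exact ⟨fun _ => 0, fun u hu => absurd hu (Set.notMem_empty u),
    fun u hu => absurd hu (Set.notMem_empty u)⟩

/-- A finite set can be coloured with as many colours as it has elements. -/
theorem colOn_card {G : SimpleGraph V} (S : Finset V) : ColOn G (S : Set V) S.card := by
  classical
  refine ⟨fun v => if hv : v ∈ S then (S.equivFin ⟨v, hv⟩).val else 0, ?_, ?_⟩
  · intro u hu
    have hu' : u ∈ S := hu
    simp only [hu', dif_pos]
    exact (S.equivFin ⟨u, hu'⟩).isLt
  · intro u hu v hv huv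
    have hu' : u ∈ S := hu
    have hv' : v ∈ S := hv
    simp only [hu', hv', dif_pos]
    intro h
    have := S.equivFin.injective (Fin.ext h)
    simp only [Subtype.mk.injEq] at this
    exact huv.ne this

theorem KFree.mono {G : SimpleGraph V} {S T : Set V} {k : ℕ} (h : KFree G T k) (hST : S ⊆ T) :
    KFree G S k := fun A hA => h A (hA.trans hST)

theorem PFree.mono {G : SimpleGraph V} {S T : Set V} {l : ℕ} (h : PFree G T l) (hST : S ⊆ T) :
    PFree G S l := fun a b c d ha hb hc hd hP A hA =>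
  h a b c d (hST ha) (hST hb) (hST hc) (hST hd) hP A (hA.trans hST)

theorem ALt.mono {G : SimpleGraph V} {S T : Set V} {t : ℕ} (h : ALt G T t) (hST : S ⊆ T) :
    ALt G S t := fun A hA => h A (hA.trans hST)

theorem kFree_univ {G : SimpleGraph V} {k : ℕ} (h : G.CliqueFree k) : KFree G Set.univ k :=
  fun T _ => h T

/-- The neighbourhood of a vertex drops the clique number. -/
theorem KFree.nbhd {G : SimpleGraph V} {S : Set V} {k : ℕ} (h : KFree G S (k + 1)) {v : V}
    (hv : v ∈ S) : KFree G {u | u ∈ S ∧ G.Adj v u} k := by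
  classical
  intro T hT hC
  refine h (insert v T) ?_ ?_
  · intro x hx
    rw [Finset.coe_insert] at hx
    rcases hx with rfl | hx
    · exact hv
    · exact (hT hx).1
  · exact hC.insert (fun b hb => (hT hb).2)

/-- Passing to the non-neighbours of a vertex drops l by one. -/
theorem PFree.nonnbhd {G : SimpleGraph V} {S : Set V} {l : ℕ} (h : PFree G S (l + 1)) {v : V}
    (hv : v ∈ S) : PFree G {u | u ∈ S ∧ u ≠ v ∧ ¬ G.Adj v u} l := by
  classical
  intro a b c d ha hb hc hd hP T hT hI hN
  have hvT : v ∉ T := fun hv' => (hT hv').2.1 rfl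
  have := h a b c d ha.1 hb.1 hc.1 hd.1 hP (insert v T) ?_ ?_ ?_
  · rw [Finset.card_insert_of_notMem hvT] at this
    omega
  · intro x hx
    rw [Finset.coe_insert] at hx
    rcases hx with rfl | hx
    · exact hv
    · exact (hT hx).1
  · rw [Finset.coe_insert]
    intro x hx y hy hxy
    rcases hx with rfl | hx
    · rcases hy with rfl | hy
      · exact absurd rfl hxy
      · exact (hT hy).2.2
    · rcases hy with rfl | hy
      · exact fun h => (hT hx).2.2 h.symm
      · exact hI hx hy hxy
  · intro x hx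
    rw [Finset.mem_insert] at hx
    rcases hx with rfl | hx
    · exact ⟨fun h => ha.2.2 h.symm, fun h => hb.2.2 h.symm, fun h => hc.2.2 h.symm,
        fun h => hd.2.2 h.symm⟩
    · exact hN x hx

/-- From an embedding-free graph to the elementary formulation. -/
theorem pFree_univ {G : SimpleGraph V} {l : ℕ} (h : ¬ (P4l l).IsIndContained G) :
    PFree G Set.univ l := by
  classical
  intro a b c d _ _ _ _ hP T _ hI hN
  by_contra hlt
  push Not at hlt
  apply h
  obtain ⟨T', hT', hcard⟩ := Finset.exists_subset_card_eq hlt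
  let e : Fin l ≃ T' := (T'.equivFinOfCardEq hcard).symm
  have hinj : ∀ i j : Fin l, (e i : V) = e j → i = j := fun i j hij =>
    e.injective (Subtype.ext hij)
  have hmem : ∀ i : Fin l, (e i : V) ∈ T := fun i => hT' (e i).2
  have hne : ∀ i : Fin l, a ≠ e i ∧ b ≠ e i ∧ c ≠ e i ∧ d ≠ e i := by
    intro i
    obtain ⟨h1, h2, h3, h4⟩ := hN _ (hmem i)
    refine ⟨?_, ?_, ?_, ?_⟩
    · intro hh; apply h2; rw [← hh]; exact hP.ab.symm
    · intro hh; apply h1; rw [← hh]; exact hP.ab
    · intro hh; apply h2; rw [← hh]; exact hP.bc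
    · intro hh; apply h3; rw [← hh]; exact hP.cd
  have nac : a ≠ c := fun hh => hP.ad (hh ▸ hP.cd)
  have nad : a ≠ d := fun hh => hP.bd (hh ▸ hP.ab.symm)
  have nbd : b ≠ d := fun hh => hP.ad (hh ▸ hP.ab)
  let F : Fin 4 ⊕ Fin l → V := Sum.elim ![a, b, c, d] (fun i => (e i : V))
  refine ⟨⟨⟨F, ?_⟩, ?_⟩⟩
  · rintro (i | i) (j | j) hij
    · fin_cases i <;> fin_cases j <;>
        simp_all [F, hP.ab.ne, hP.bc.ne, hP.cd.ne, hP.ab.ne', hP.bc.ne', hP.cd.ne', nac.symm,
          nad.symm, nbd.symm]
    · exfalso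
      obtain ⟨h1, h2, h3, h4⟩ := hne j
      fin_cases i <;> simp_all [F]
    · exfalso
      obtain ⟨h1, h2, h3, h4⟩ := hne i
      fin_cases j <;> simp_all [F, eq_comm]
    · simp only [F, Sum.elim_inr] at hij
      rw [hinj i j hij]
  · rintro (i | i) (j | j)
    · simp only [F, Function.Embedding.coeFn_mk, Sum.elim_inl, sum_adj_inl, pathGraph_adj]
      have h1 := hP.ab
      have h2 := hP.bc
      have h3 := hP.cd
      have h4 := hP.ac
      have h5 := hP.ad
      have h6 := hP.bd
      have h1' := h1.symm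
      have h2' := h2.symm
      have h3' := h3.symm
      have h4' : ¬ G.Adj c a := fun h => h4 h.symm
      have h5' : ¬ G.Adj d a := fun h => h5 h.symm
      have h6' : ¬ G.Adj d b := fun h => h6 h.symm
      fin_cases i <;> fin_cases j <;> simp [h1, h2, h3, h4, h5, h6, h1', h2', h3', h4', h5', h6']
    · simp only [F, Function.Embedding.coeFn_mk, Sum.elim_inl, Sum.elim_inr]
      obtain ⟨h1, h2, h3, h4⟩ := hN _ (hmem j)
      fin_cases i <;> simp [h1, h2, h3, h4, SimpleGraph.sum]
    · simp only [F, Function.Embedding.coeFn_mk, Sum.elim_inl, Sum.elim_inr]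
      obtain ⟨h1, h2, h3, h4⟩ := hN _ (hmem i)
      have h1' : ¬ G.Adj (e i) a := fun h => h1 h.symm
      have h2' : ¬ G.Adj (e i) b := fun h => h2 h.symm
      have h3' : ¬ G.Adj (e i) c := fun h => h3 h.symm
      have h4' : ¬ G.Adj (e i) d := fun h => h4 h.symm
      fin_cases j <;> simp [h1', h2', h3', h4', SimpleGraph.sum]
    · simp only [F, Function.Embedding.coeFn_mk, Sum.elim_inr, sum_adj_inr, bot_adj, iff_false]
      intro hadj
      exact hI (hmem i) (hmem j) hadj.ne hadj

/-- A graph in which every independent set has at most l+1 vertices is (P_4 + l P_1)-free. -/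
theorem free_of_alt {G : SimpleGraph V} {l : ℕ} (h : ALt G Set.univ (l + 2)) :
    ¬ (P4l l).IsIndContained G := by
  classical
  rintro ⟨φ⟩
  let g : Fin (l + 2) → V := Fin.cases (φ (Sum.inl 0)) (Fin.cases (φ (Sum.inl 2))
    (fun i => φ (Sum.inr i)))
  have key : ∀ i j : Fin (l + 2), i ≠ j → g i ≠ g j ∧ ¬ G.Adj (g i) (g j) := by
    intro i j
    refine Fin.cases ?_ (fun i => Fin.cases ?_ (fun i => ?_) i) i <;>
    refine Fin.cases ?_ (fun j => Fin.cases ?_ (fun j => ?_) j) j <;> intro hij <;>
    simp only [g, Fin.cases_zero, Fin.cases_succ] <;>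
    refine ⟨fun hh => ?_, fun hh => ?_⟩ <;>
    first
    | exact absurd rfl hij
    | (have hh' := φ.injective hh
       simp_all)
    | (have hh' := φ.map_adj_iff.1 hh
       simp [SimpleGraph.sum, pathGraph_adj] at hh')
  have hginj : Function.Injective g := by
    intro i j hij
    by_contra hne
    exact (key i j hne).1 hij
  have := h (Finset.univ.image g) (Set.subset_univ _) ?_
  · rw [Finset.card_image_of_injective _ hginj, Finset.card_univ, Fintype.card_fin] at this
    omega
  · intro x hx y hy hxy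
    simp only [coe_image, coe_univ, Set.image_univ, Set.mem_range] at hx hy
    obtain ⟨i, rfl⟩ := hx
    obtain ⟨j, rfl⟩ := hy
    exact (key i j (fun h => hxy (h ▸ rfl))).2

end Pool.Agent.Lib.MP_6383d0_co
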