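import Pool.Agent.Lib.MP_6383d0_co.H51.Cograph

/-!
Triangle-free graphs without an induced P_4 + 2P_1 are 3-colourable.
-/

namespace Pool.Agent.Lib.MP_6383d0_co

open SimpleGraph Finset

variable {V : Type*}

theorem KFree.tri {G : SimpleGraph V} {S : Set V} (h : KFree G S 3) {x y z : V} (hx : x ∈ S)
    (hy : y ∈ S) (hz : z ∈ S) (hxy : G.Adj x y) (hxz : G.Adj x z) (hyz : G.Adj y z) : False := by
  classical
  refine h {x, y, z} ?_ (is3Clique_triple_iff.2 ⟨hxy, hxz, hyz⟩)
  intro w hw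
  simp only [coe_insert, coe_singleton, Set.mem_insert_iff, Set.mem_singleton_iff] at hw
  rcases hw with rfl | rfl | rfl <;> assumption

/-- c is an induced five-cycle inside S. -/
def IsC5 (G : SimpleGraph V) (S : Set V) (c : ZMod 5 → V) : Prop :=
  (∀ i, c i ∈ S) ∧ ∀ i j, G.Adj (c i) (c j) ↔ (j = i + 1 ∨ i = j + 1)

theorem zmod5_cases : ∀ i : ZMod 5, i = 0 ∨ i = 1 ∨ i = 2 ∨ i = 3 ∨ i = 4 := by decide

theorem isC5_of {G : SimpleGraph V} {S : Set V} (h3 : KFree G S 3) {p q r x y : V}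
    (hp : p ∈ S) (hq : q ∈ S) (hr : r ∈ S) (hx : x ∈ S) (hy : y ∈ S)
    (hpq : G.Adj p q) (hqr : G.Adj q r) (hpr : ¬ G.Adj p r) (hxp : G.Adj x p) (hyr : G.Adj y r)
    (hxy : G.Adj x y) : ∃ c, IsC5 G S c := by
  have h1 : ¬ G.Adj p y := fun h => h3.tri hp hx hy hxp.symm h hxy
  have h2 : ¬ G.Adj q y := fun h => h3.tri hq hr hy hqr h hyr.symm
  have h4 : ¬ G.Adj q x := fun h => h3.tri hq hp hx hpq.symm h hxp.symm
  have h5 : ¬ G.Adj r x := fun h => h3.tri hr hx hy h hyr.symm hxy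
  refine ⟨![p, q, r, y, x], ?_, ?_⟩
  · intro i
    rcases zmod5_cases i with rfl | rfl | rfl | rfl | rfl <;> assumption
  · intro i j
    have e1 := hpq.symm
    have e2 := hqr.symm
    have e3 := hxp.symm
    have e4 := hyr.symm
    have e5 := hxy.symm
    have n1 : ¬ G.Adj y p := fun h => h1 h.symm
    have n2 : ¬ G.Adj y q := fun h => h2 h.symm
    have n3 : ¬ G.Adj x q := fun h => h4 h.symm
    have n4 : ¬ G.Adj x r := fun h => h5 h.symm
    have n5 : ¬ G.Adj r p := fun h => hpr h.symm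
    rcases zmod5_cases i with rfl | rfl | rfl | rfl | rfl <;>
      rcases zmod5_cases j with rfl | rfl | rfl | rfl | rfl <;>
      first
      | exact iff_of_false (G.loopless.irrefl _) (by decide)
      | exact iff_of_true hpq (by decide)
      | exact iff_of_true hqr (by decide)
      | exact iff_of_true hxp (by decide)
      | exact iff_of_true hyr (by decide)
      | exact iff_of_true hxy (by decide)
      | exact iff_of_true e1 (by decide)
      | exact iff_of_true e2 (by decide)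
      | exact iff_of_true e3 (by decide)
      | exact iff_of_true e4 (by decide)
      | exact iff_of_true e5 (by decide)
      | exact iff_of_false hpr (by decide)
      | exact iff_of_false h1 (by decide)
      | exact iff_of_false h2 (by decide)
      | exact iff_of_false h4 (by decide)
      | exact iff_of_false h5 (by decide)
      | exact iff_of_false n1 (by decide)
      | exact iff_of_false n2 (by decide)
      | exact iff_of_false n3 (by decide)
      | exact iff_of_false n4 (by decide)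
      | exact iff_of_false n5 (by decide)

theorem PFree.one {G : SimpleGraph V} {S : Set V} (h : PFree G S 1) {a b c d x : V}
    (ha : a ∈ S) (hb : b ∈ S) (hc : c ∈ S) (hd : d ∈ S) (hx : x ∈ S) (hP : IsP4 G a b c d) :
    G.Adj a x ∨ G.Adj b x ∨ G.Adj c x ∨ G.Adj d x := by
  by_contra hno
  push Not at hno
  have := h a b c d ha hb hc hd hP {x} (by simpa using hx) (by simp [SimpleGraph.IsIndepSet])
    (by
      intro y hy
      rw [Finset.mem_singleton] at hy
      subst hy
      exact hno)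
  simp at this

/-- Triangle-free, (P_4+P_1)-free and no induced C_5: bipartite. -/
theorem twoCol {G : SimpleGraph V} (A : Finset V) (h3 : KFree G (A : Set V) 3)
    (hP : PFree G (A : Set V) 1) (h5 : ∀ c, ¬ IsC5 G (A : Set V) c) : ColOn G (A : Set V) 2 := by
  by_cases hN : NoP4 G (A : Set V)
  · exact hN.colOn 2 A h3
  · unfold NoP4 at hN
    push Not at hN
    obtain ⟨a, b, c, d, ha, hb, hc, hd, hQ⟩ := hN
    have hX : ColOn G {x | x ∈ A ∧ (G.Adj x a ∨ G.Adj x c)} 1 := by
      apply colOn_indep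
      rintro x ⟨hx, hx'⟩ y ⟨hy, hy'⟩ hxy
      rcases hx' with hx' | hx' <;> rcases hy' with hy' | hy'
      · exact h3.tri hx hy ha hxy hx' hy'
      · obtain ⟨f, hf⟩ := isC5_of h3 ha hb hc hx hy hQ.ab hQ.bc hQ.ac hx' hy' hxy
        exact h5 f hf
      · obtain ⟨f, hf⟩ := isC5_of h3 ha hb hc hy hx hQ.ab hQ.bc hQ.ac hy' hx' hxy.symm
        exact h5 f hf
      · exact h3.tri hx hy hc hxy hx' hy'
    have hY : ColOn G {x | x ∈ A ∧ (G.Adj x b ∨ G.Adj x d)} 1 := by
      apply colOn_indep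
      rintro x ⟨hx, hx'⟩ y ⟨hy, hy'⟩ hxy
      rcases hx' with hx' | hx' <;> rcases hy' with hy' | hy'
      · exact h3.tri hx hy hb hxy hx' hy'
      · obtain ⟨f, hf⟩ := isC5_of h3 hb hc hd hx hy hQ.bc hQ.cd hQ.bd hx' hy' hxy
        exact h5 f hf
      · obtain ⟨f, hf⟩ := isC5_of h3 hb hc hd hy hx hQ.bc hQ.cd hQ.bd hy' hx' hxy.symm
        exact h5 f hf
      · exact h3.tri hx hy hd hxy hx' hy'
    refine (hX.union hY).mono ?_ le_rfl
    intro x hx
    rcases hP.one ha hb hc hd hx hQ with h | h | h | h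
    · exact Or.inl ⟨hx, Or.inl h.symm⟩
    · exact Or.inr ⟨hx, Or.inl h.symm⟩
    · exact Or.inl ⟨hx, Or.inr h.symm⟩
    · exact Or.inr ⟨hx, Or.inr h.symm⟩

theorem zmod5_class : ∀ p : ZMod 5 → Bool,
    (∀ i, p (i + 1) = true ∨ p (i + 2) = true ∨ p (i + 3) = true ∨ p (i + 4) = true) →
    (∀ i, ¬ (p i = true ∧ p (i + 1) = true)) →
    ∃ i, ∀ j, p j = true ↔ (i = j + 1 ∨ j = i + 1) := by
  decide +revert

theorem zmod5_contra : ∀ p : ZMod 5 → Bool,
    (∀ i, p i = true ∨ p (i + 2) = true ∨ p (i + 3) = true) →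
    (∀ i, ¬ (p i = true ∧ p (i + 1) = true)) → False := by
  decide +revert

/-- A path inside a five-cycle. -/
theorem IsC5.p4 {G : SimpleGraph V} {S : Set V} {c : ZMod 5 → V} (hc : IsC5 G S c) (i : ZMod 5) :
    IsP4 G (c (i + 1)) (c (i + 2)) (c (i + 3)) (c (i + 4)) := by
  have h := hc.2
  refine ⟨?_, ?_, ?_, ?_, ?_, ?_⟩ <;> rw [h] <;> revert i <;> decide

theorem IsC5.exists_class {G : SimpleGraph V} {S : Set V} {c : ZMod 5 → V} (hc : IsC5 G S c)
    (h3 : KFree G S 3) (hP : PFree G S 1) {x : V} (hx : x ∈ S) :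
    ∃ i : ZMod 5, ∀ j, G.Adj x (c j) ↔ (i = j + 1 ∨ j = i + 1) := by
  classical
  have := zmod5_class (fun j => decide (G.Adj x (c j))) ?_ ?_
  · simpa only [decide_eq_true_iff] using this
  · intro i
    simp only [decide_eq_true_iff]
    rcases hP.one (hc.1 _) (hc.1 _) (hc.1 _) (hc.1 _) hx (hc.p4 i) with h | h | h | h
    · exact Or.inl h.symm
    · exact Or.inr (Or.inl h.symm)
    · exact Or.inr (Or.inr (Or.inl h.symm))
    · exact Or.inr (Or.inr (Or.inr h.symm))
  · intro i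
    simp only [decide_eq_true_iff]
    rintro ⟨h1, h2⟩
    exact h3.tri hx (hc.1 _) (hc.1 _) h1 h2 ((hc.2 _ _).2 (Or.inl rfl))

theorem IsC5.adj_succ {G : SimpleGraph V} {S : Set V} {c : ZMod 5 → V} (hc : IsC5 G S c)
    (h3 : KFree G S 3) (hP : PFree G S 1) {x y : V} (hx : x ∈ S) (hy : y ∈ S) {i : ZMod 5}
    (hxi : ∀ j, G.Adj x (c j) ↔ (i = j + 1 ∨ j = i + 1))
    (hyi : ∀ j, G.Adj y (c j) ↔ (i + 1 = j + 1 ∨ j = i + 1 + 1)) : G.Adj x y := by
  by_contra hxy
  have hQ : IsP4 G (c (i + 3)) (c (i + 4)) x (c (i + 1)) := by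
    refine ⟨?_, ?_, ?_, ?_, ?_, ?_⟩
    · rw [hc.2]; clear * -; revert i; decide
    · rw [G.adj_comm, hxi]; clear * -; revert i; decide
    · rw [hxi]; exact Or.inr rfl
    · rw [G.adj_comm, hxi]; clear * -; revert i; decide
    · rw [hc.2]; clear * -; revert i; decide
    · rw [hc.2]; clear * -; revert i; decide
  rcases hP.one (hc.1 _) (hc.1 _) hx (hc.1 _) hy hQ with h | h | h | h
  · rw [G.adj_comm, hyi] at h; revert h; clear * -; revert i; decide
  · rw [G.adj_comm, hyi] at h; revert h; clear * -; revert i; decide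
  · exact hxy h
  · rw [G.adj_comm, hyi] at h; revert h; clear * -; revert i; decide

theorem IsC5.adj_iff {G : SimpleGraph V} {S : Set V} {c : ZMod 5 → V} (hc : IsC5 G S c)
    (h3 : KFree G S 3) (hP : PFree G S 1) {x y : V} (hx : x ∈ S) (hy : y ∈ S) {i i' : ZMod 5}
    (hxi : ∀ j, G.Adj x (c j) ↔ (i = j + 1 ∨ j = i + 1))
    (hyi : ∀ j, G.Adj y (c j) ↔ (i' = j + 1 ∨ j = i' + 1)) :
    G.Adj x y ↔ (i' = i + 1 ∨ i = i' + 1) := by
  constructor
  · intro hxy
    by_contra hno
    have : ∃ j : ZMod 5, (i = j + 1 ∨ j = i + 1) ∧ (i' = j + 1 ∨ j = i' + 1) := by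
      revert hno; clear * -; revert i i'; decide
    obtain ⟨j, h1, h2⟩ := this
    exact h3.tri hx hy (hc.1 j) hxy ((hxi j).2 h1) ((hyi j).2 h2)
  · rintro (rfl | rfl)
    · exact hc.adj_succ h3 hP hx hy hxi hyi
    · exact (hc.adj_succ h3 hP hy hx hyi hxi).symm

/-- A triangle-free (P_4+P_1)-free graph with an induced C_5 has no induced 2K_2. -/
theorem IsC5.no2K2 {G : SimpleGraph V} {S : Set V} {c : ZMod 5 → V} (hc : IsC5 G S c)
    (h3 : KFree G S 3) (hP : PFree G S 1) {v b x y : V} (hv : v ∈ S) (hb : b ∈ S) (hx : x ∈ S)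
    (hy : y ∈ S) (hvb : G.Adj v b) (hxy : G.Adj x y) :
    G.Adj v x ∨ G.Adj v y ∨ G.Adj b x ∨ G.Adj b y := by
  obtain ⟨i1, h1⟩ := hc.exists_class h3 hP hv
  obtain ⟨i2, h2⟩ := hc.exists_class h3 hP hb
  obtain ⟨i3, h3'⟩ := hc.exists_class h3 hP hx
  obtain ⟨i4, h4⟩ := hc.exists_class h3 hP hy
  rw [hc.adj_iff h3 hP hv hb h1 h2] at hvb
  rw [hc.adj_iff h3 hP hx hy h3' h4] at hxy
  rw [hc.adj_iff h3 hP hv hx h1 h3', hc.adj_iff h3 hP hv hy h1 h4,
    hc.adj_iff h3 hP hb hx h2 h3', hc.adj_iff h3 hP hb hy h2 h4]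
  revert hvb hxy
  clear * -
  revert i1 i2 i3 i4
  decide

/-- Triangle-free and (P_4+2P_1)-free graphs are 3-colourable. -/
theorem threeCol {G : SimpleGraph V} (S : Finset V) (h3 : KFree G (S : Set V) 3)
    (hP : PFree G (S : Set V) 2) : ColOn G (S : Set V) 3 := by
  classical
  by_cases hedge : ∃ v ∈ S, ∃ b ∈ S, G.Adj v b
  · by_cases hex : ∃ v ∈ S, ColOn G {u | u ∈ (S : Set V) ∧ u ≠ v ∧ ¬ G.Adj v u} 2
    · obtain ⟨v, hv, hcol⟩ := hex
      have h1 : ColOn G {u | u ∈ (S : Set V) ∧ G.Adj v u} 1 := by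
        apply colOn_indep
        rintro x ⟨hx, hx'⟩ y ⟨hy, hy'⟩ hxy
        exact h3.tri hx hy hv hxy hx'.symm hy'.symm
      exact colOn_split (by norm_num) h1 hcol
    · push Not at hex
      exfalso
      -- every non-neighbourhood contains a five-cycle
      have hC : ∀ v ∈ S, ∃ c, IsC5 G {u | u ∈ (S : Set V) ∧ u ≠ v ∧ ¬ G.Adj v u} c := by
        intro v hv
        by_contra hno
        push Not at hno
        apply hex v hv
        have hfin : ((S.filter (fun u => u ≠ v ∧ ¬ G.Adj v u) : Finset V) : Set V) =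
            {u | u ∈ (S : Set V) ∧ u ≠ v ∧ ¬ G.Adj v u} := by
          ext u; simp
        rw [← hfin]
        apply twoCol
        · apply h3.mono
          rw [hfin]
          exact fun u hu => hu.1
        · rw [hfin]
          exact hP.nonnbhd hv
        · rw [hfin]
          exact hno
      obtain ⟨v, hv, b, hb, hvb⟩ := hedge
      obtain ⟨c, hc⟩ := hC v hv
      refine zmod5_contra (fun j => decide (G.Adj b (c j))) ?_ ?_
      · intro i
        simp only [decide_eq_true_iff]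
        by_contra hno
        push Not at hno
        obtain ⟨n1, n2, n3⟩ := hno
        obtain ⟨c', hc'⟩ := hC (c i) (hc.1 i).1
        have h3' : KFree G {u | u ∈ (S : Set V) ∧ u ≠ c i ∧ ¬ G.Adj (c i) u} 3 :=
          h3.mono (fun u hu => hu.1)
        have hP' := hP.nonnbhd (hc.1 i).1
        have hvm : v ∈ {u | u ∈ (S : Set V) ∧ u ≠ c i ∧ ¬ G.Adj (c i) u} :=
          ⟨hv, fun h => (hc.1 i).2.1 h.symm, fun h => (hc.1 i).2.2 h.symm⟩
        have hbm : b ∈ {u | u ∈ (S : Set V) ∧ u ≠ c i ∧ ¬ G.Adj (c i) u} :=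
          ⟨hb, fun h => (hc.1 i).2.2 (h ▸ hvb), fun h => n1 h.symm⟩
        have e2 : ¬ G.Adj (c i) (c (i + 2)) := by
          rw [hc.2]; clear * -; revert i; decide
        have e3 : ¬ G.Adj (c i) (c (i + 3)) := by
          rw [hc.2]; clear * -; revert i; decide
        have e4 : G.Adj (c (i + 2)) (c (i + 3)) := by
          rw [hc.2]; clear * -; revert i; decide
        have f2 : c (i + 2) ≠ c i := by
          intro h
          have := (hc.2 i (i + 4)).2 (Or.inr (by clear * -; revert i; decide))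
          rw [← h, hc.2] at this
          revert this; clear * -; revert i; decide
        have f3 : c (i + 3) ≠ c i := by
          intro h
          have := (hc.2 i (i + 1)).2 (Or.inl rfl)
          rw [← h, hc.2] at this
          revert this; clear * -; revert i; decide
        have hx : c (i + 2) ∈ {u | u ∈ (S : Set V) ∧ u ≠ c i ∧ ¬ G.Adj (c i) u} :=
          ⟨(hc.1 _).1, f2, e2⟩
        have hy : c (i + 3) ∈ {u | u ∈ (S : Set V) ∧ u ≠ c i ∧ ¬ G.Adj (c i) u} :=
          ⟨(hc.1 _).1, f3, e3⟩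
        rcases hc'.no2K2 h3' hP' hvm hbm hx hy hvb e4 with h | h | h | h
        · exact (hc.1 _).2.2 h
        · exact (hc.1 _).2.2 h
        · exact n2 h
        · exact n3 h
      · intro i
        simp only [decide_eq_true_iff]
        rintro ⟨h1, h2⟩
        exact h3.tri hb (hc.1 _).1 (hc.1 _).1 h1 h2 ((hc.2 _ _).2 (Or.inl rfl))
  · push Not at hedge
    exact (colOn_indep (G := G) (S := (S : Set V)) hedge).mono le_rfl (by norm_num)

end Pool.Agent.Lib.MP_6383d0_co
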