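import Pool.Agent.Lib.MP_6383d0_co.H51.Ramsey
import Pool.Agent.Lib.MP_6383d0_co.H51.Small

/-!
The off-diagonal Ramsey bound of Ajtai, Komlos and Szemeredi, and its chromatic version.
-/

namespace Pool.Agent.Lib.MP_6383d0_co

open SimpleGraph Finset

/-- K_{j+2}-free graphs with independence number less than t have at most
C t (t / log t)^j vertices. -/
def RB (j : ℕ) (C : ℝ) : Prop := ∀ t : ℕ, 2 ≤ t → ∀ (V : Type) [Fintype V] (G : SimpleGraph V),
  KFree G Set.univ (j + 2) → ALt G Set.univ t →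
    (Fintype.card V : ℝ) ≤ C * t * ((t : ℝ) / Real.log t) ^ j

theorem RB.on {j : ℕ} {C : ℝ} (h : RB j C) {t : ℕ} (ht : 2 ≤ t) {V : Type} [Fintype V]
    {G : SimpleGraph V} {S : Set V} (hK : KFree G S (j + 2)) (hA : ALt G S t) :
    (S.ncard : ℝ) ≤ C * t * ((t : ℝ) / Real.log t) ^ j := by
  classical
  have := h t ht S (G.induce S) (kFree_induce hK) (aLt_induce hA)
  rwa [← Nat.card_eq_fintype_card] at this

/-- The basic estimates about t / log t. -/
theorem x_facts {t : ℕ} (ht : 2 ≤ t) : 0 < Real.log t ∧ 1 ≤ (t : ℝ) / Real.log t ∧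
    Real.log t / 2 ≤ Real.log ((t : ℝ) / Real.log t) := by
  have ht' : (2 : ℝ) ≤ t := by exact_mod_cast ht
  have hlog : 0 < Real.log t := Real.log_pos (by linarith)
  have h0 : 0 ≤ Real.sqrt t := Real.sqrt_nonneg _
  have hsq : Real.sqrt t ^ 2 = t := Real.sq_sqrt (by linarith)
  have hspos : 0 < Real.sqrt t := Real.sqrt_pos.2 (by linarith)
  -- log t ≤ sqrt t
  have h1 : Real.log t ≤ Real.sqrt t := by
    have h2 : Real.log t = 4 * Real.log (Real.sqrt (Real.sqrt t)) := by
      rw [Real.log_sqrt (Real.sqrt_nonneg _), Real.log_sqrt (by linarith)]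
      ring
    have h3 : Real.sqrt (Real.sqrt t) ^ 2 = Real.sqrt t := Real.sq_sqrt h0
    set y := Real.sqrt (Real.sqrt t) with hy
    have hypos : 0 < y := Real.sqrt_pos.2 hspos
    have h4 : Real.log y ≤ y - 1 := Real.log_le_sub_one_of_pos hypos
    rw [h2, ← h3]
    nlinarith [sq_nonneg (y - 2)]
  refine ⟨hlog, ?_, ?_⟩
  · rw [le_div_iff₀ hlog, one_mul]
    have := Real.log_le_sub_one_of_pos (show (0 : ℝ) < t by linarith)
    linarith
  · rw [← Real.log_sqrt (by linarith)]
    apply Real.log_le_log hspos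
    rw [le_div_iff₀ hlog]
    calc Real.sqrt t * Real.log t ≤ Real.sqrt t * Real.sqrt t := by gcongr
      _ = t := by rw [← sq, hsq]

theorem aLt_nbhd {V : Type} {G : SimpleGraph V} {t : ℕ} (hA : ALt G Set.univ t) (S : Set V) :
    ALt G S t := hA.mono (Set.subset_univ _)

theorem rb_zero : RB 0 1 := by
  classical
  intro t ht V _ G hK hA
  have h1 : G.IsIndepSet ((Finset.univ : Finset V) : Set V) := by
    intro u _ v _ huv hadj
    refine hK {u, v} (Set.subset_univ _) ?_
    rw [isNClique_iff]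
    refine ⟨?_, by rw [Finset.card_pair hadj.ne]⟩
    rw [Finset.coe_pair, isClique_pair]
    exact fun _ => hadj
  have := hA Finset.univ (Set.subset_univ _) h1
  rw [Finset.card_univ] at this
  simp only [one_mul, pow_zero, mul_one]
  exact_mod_cast this.le

/-- The core step: from degree and codegree bounds to the number of vertices. -/
theorem rb_core {c : ℝ} (hc : 0 < c) (hI : ∀ (D a : ℕ), 1 ≤ a → a ≤ D →
    ∀ (V : Type) [Fintype V] (G : SimpleGraph V),
      (∀ v, {u | G.Adj v u}.ncard ≤ D) →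
      (∀ u v, G.Adj u v → {w | G.Adj u w ∧ G.Adj v w}.ncard ≤ a) →
      ∃ T : Finset V, G.IsIndepSet (T : Set V) ∧
        c * Fintype.card V * Real.log ((D : ℝ) / a) ≤ T.card * D)
    {t : ℕ} (ht : 2 ≤ t) {V : Type} [Fintype V] {G : SimpleGraph V} (hA : ALt G Set.univ t)
    {x : ℝ} (hx : x = (t : ℝ) / Real.log t) {A B : ℝ} (hA1 : 1 ≤ A) (hAB : 2 * A * x ≤ B)
    (hdeg : ∀ v, ({u | G.Adj v u}.ncard : ℝ) ≤ B)
    (hcod : ∀ u v, G.Adj u v → ({w | G.Adj u w ∧ G.Adj v w}.ncard : ℝ) ≤ A) :
    (Fintype.card V : ℝ) ≤ 4 / c * x * B := by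
  obtain ⟨hlog, hx1, hlx⟩ := x_facts ht
  rw [← hx] at hx1 hlx
  have hx0 : 0 < x := by linarith
  have hB1 : 2 ≤ B := by nlinarith
  set a : ℕ := ⌈A⌉₊ with ha
  set D : ℕ := ⌈B⌉₊ with hD
  have haA : A ≤ a := Nat.le_ceil A
  have hDB : B ≤ D := Nat.le_ceil B
  have haA' : (a : ℝ) ≤ 2 * A := by
    have := Nat.ceil_lt_add_one (show 0 ≤ A by linarith)
    linarith
  have hDB' : (D : ℝ) ≤ 2 * B := by
    have := Nat.ceil_lt_add_one (show 0 ≤ B by linarith)
    linarith
  have ha1 : 1 ≤ a := by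
    have : (1 : ℝ) ≤ a := by linarith
    exact_mod_cast this
  have hapos : (0 : ℝ) < a := by exact_mod_cast ha1
  have hratio : x ≤ (D : ℝ) / a := by
    rw [le_div_iff₀ hapos]
    calc x * a ≤ x * (2 * A) := by gcongr
      _ = 2 * A * x := by ring
      _ ≤ B := hAB
      _ ≤ D := hDB
  have haD : a ≤ D := by
    have h1 : (1 : ℝ) ≤ (D : ℝ) / a := hx1.trans hratio
    rw [le_div_iff₀ hapos, one_mul] at h1
    exact_mod_cast h1
  obtain ⟨T, hT, hT'⟩ := hI D a ha1 haD V G
    (fun v => by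
      have := (hdeg v).trans hDB
      exact_mod_cast this)
    (fun u v huv => by
      have := (hcod u v huv).trans haA
      exact_mod_cast this)
  have hTt : (T.card : ℝ) ≤ t := by
    have := hA T (Set.subset_univ _) hT
    exact_mod_cast this.le
  have hlogr : Real.log t / 2 ≤ Real.log ((D : ℝ) / a) :=
    hlx.trans (Real.log_le_log hx0 hratio)
  have h1 : c * Fintype.card V * (Real.log t / 2) ≤ t * (2 * B) := by
    calc c * Fintype.card V * (Real.log t / 2) ≤ c * Fintype.card V * Real.log ((D : ℝ) / a) := by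
          gcongr
      _ ≤ T.card * D := hT'
      _ ≤ t * (2 * B) := by gcongr
  have h2 : 4 / c * x * B = (t * (2 * B)) / (c * (Real.log t / 2)) := by
    rw [hx]
    field_simp
    ring
  rw [h2, le_div_iff₀ (by positivity)]
  linarith

theorem rb_all : ∀ j : ℕ, (∃ C : ℝ, 0 < C ∧ RB j C) ∧ (∃ C : ℝ, 0 < C ∧ RB (j + 1) C) := by
  classical
  obtain ⟨c, hc, hI⟩ := indep_of_codeg
  intro j
  induction j with
  | zero =>
    refine ⟨⟨1, one_pos, rb_zero⟩, ⟨16 / c, by positivity, ?_⟩⟩
    intro t ht V _ G hK hA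
    obtain ⟨hlog, hx1, hlx⟩ := x_facts ht
    have ht' : (2 : ℝ) ≤ t := by exact_mod_cast ht
    have hx4 : 2 * 1 * ((t : ℝ) / Real.log t) ≤ 4 * t := by
      have h1 : (1 : ℝ) / 2 ≤ Real.log t := by
        have h2 := Real.log_two_gt_d9
        have h3 : Real.log 2 ≤ Real.log t := Real.log_le_log (by norm_num) ht'
        linarith
      rw [mul_one, mul_div_assoc', div_le_iff₀ hlog]
      nlinarith
    have hdeg : ∀ v, ({u | G.Adj v u}.ncard : ℝ) ≤ 4 * t := by
      intro v
      have h1 := rb_zero.on ht (G := G) (S := {u | u ∈ Set.univ ∧ G.Adj v u})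
        (KFree.nbhd (k := 2) (by simpa using hK) (Set.mem_univ v)) (aLt_nbhd hA _)
      simp only [Set.mem_univ, true_and, one_mul, pow_zero, mul_one] at h1
      refine h1.trans ?_
      linarith
    have hcod : ∀ u v, G.Adj u v → ({w | G.Adj u w ∧ G.Adj v w}.ncard : ℝ) ≤ 1 := by
      intro u v huv
      have : {w | G.Adj u w ∧ G.Adj v w} = ∅ := by
        rw [Set.eq_empty_iff_forall_notMem]
        rintro w ⟨h1, h2⟩
        exact KFree.tri (by simpa using hK) (Set.mem_univ u) (Set.mem_univ v) (Set.mem_univ w)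
          huv h1 h2
      rw [this, Set.ncard_empty]
      norm_num
    have := rb_core hc hI ht hA rfl le_rfl hx4 hdeg hcod
    rw [zero_add, pow_one]
    refine this.trans (le_of_eq ?_)
    ring
  | succ j ih =>
    obtain ⟨⟨C0, hC0, h0⟩, ⟨C1, hC1, h1⟩⟩ := ih
    refine ⟨⟨C1, hC1, h1⟩, ⟨4 / c * (C1 + 2 * (C0 + 1)), by positivity, ?_⟩⟩
    intro t ht V _ G hK hA
    obtain ⟨hlog, hx1, hlx⟩ := x_facts ht
    have ht' : (2 : ℝ) ≤ t := by exact_mod_cast ht
    set x : ℝ := (t : ℝ) / Real.log t with hx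
    have hxj : (1 : ℝ) ≤ x ^ j := one_le_pow₀ hx1
    have hdeg : ∀ v, ({u | G.Adj v u}.ncard : ℝ) ≤ (C1 + 2 * (C0 + 1)) * t * x ^ (j + 1) := by
      intro v
      have e1 := h1.on ht (G := G) (S := {u | u ∈ Set.univ ∧ G.Adj v u})
        (KFree.nbhd (k := j + 3) hK (Set.mem_univ v)) (aLt_nbhd hA _)
      simp only [Set.mem_univ, true_and] at e1
      refine e1.trans ?_
      gcongr
      linarith
    have hcod : ∀ u v, G.Adj u v → ({w | G.Adj u w ∧ G.Adj v w}.ncard : ℝ) ≤
        (C0 + 1) * t * x ^ j := by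
      intro u v huv
      have k1 := KFree.nbhd (k := j + 3) hK (Set.mem_univ u)
      have k2 := KFree.nbhd (k := j + 2) k1 (v := v) ⟨Set.mem_univ v, huv⟩
      have e1 := h0.on ht (G := G) k2 (aLt_nbhd hA _)
      simp only [Set.mem_univ, true_and, Set.mem_ofPred_eq] at e1
      refine e1.trans ?_
      gcongr
      linarith
    have hA1 : 1 ≤ (C0 + 1) * t * x ^ j := by
      have : (1 : ℝ) ≤ (C0 + 1) * t := by nlinarith
      nlinarith
    have hAB : 2 * ((C0 + 1) * t * x ^ j) * x ≤ (C1 + 2 * (C0 + 1)) * t * x ^ (j + 1) := by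
      have : 2 * ((C0 + 1) * t * x ^ j) * x = (2 * (C0 + 1)) * t * x ^ (j + 1) := by ring
      rw [this]
      gcongr
      linarith
    have := rb_core hc hI ht hA rfl hA1 hAB hdeg hcod
    refine this.trans (le_of_eq ?_)
    ring

/-- The Ramsey bound for all j. -/
theorem rb_exists (j : ℕ) : ∃ C : ℝ, 0 < C ∧ RB j C := (rb_all j).1

/-- Repeatedly removing independent sets of size s. -/
theorem extract {V : Type} (G : SimpleGraph V) (s : ℕ) (hs : 1 ≤ s) : ∀ (n : ℕ) (S : Finset V),
    S.card = n → ∃ (S' : Finset V) (r : ℕ), S' ⊆ S ∧ r * s ≤ S.card ∧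
      ColOn G ((S : Set V) \ (S' : Set V)) r ∧ ALt G (S' : Set V) s := by
  classical
  intro n
  induction n using Nat.strong_induction_on with
  | _ n ih =>
    intro S hS
    by_cases hA : ALt G (S : Set V) s
    · exact ⟨S, 0, Finset.Subset.refl _, by simp, colOn_empty (by simp) 0, hA⟩
    · unfold ALt at hA
      push Not at hA
      obtain ⟨T, hTS, hTI, hTs⟩ := hA
      obtain ⟨T', hT'T, hT'card⟩ := Finset.exists_subset_card_eq hTs
      have hT'S : T' ⊆ S := fun v hv => hTS (hT'T hv)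
      have hcard : (S \ T').card = S.card - s := by
        rw [Finset.card_sdiff_of_subset hT'S, hT'card]
      have hle : s ≤ S.card := by
        rw [← hT'card]
        exact Finset.card_le_card hT'S
      obtain ⟨S', r, hS', hr, hcol, hA'⟩ := ih (S \ T').card (by omega) (S \ T') rfl
      refine ⟨S', r + 1, hS'.trans Finset.sdiff_subset, ?_, ?_, hA'⟩
      · rw [hcard] at hr
        rw [add_mul, one_mul]
        omega
      · have h1 : ColOn G (T' : Set V) 1 := by
          apply colOn_indep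
          intro u hu v hv huv
          exact hTI (hT'T hu) (hT'T hv) huv.ne huv
        refine (hcol.union h1).mono ?_ le_rfl
        intro v hv
        by_cases hvT : v ∈ T'
        · exact Or.inr hvT
        · left
          refine ⟨?_, hv.2⟩
          rw [Finset.coe_sdiff]
          exact ⟨hv.1, hvT⟩

/-- The chromatic bound for K_{j+2}-free graphs with independence number less than t. -/
theorem chrom_of_alpha (j : ℕ) : ∃ K : ℝ, 0 < K ∧ ∀ t : ℕ, 2 ≤ t → ∀ (V : Type) (G : SimpleGraph V)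
    (S : Finset V), KFree G (S : Set V) (j + 2) → ALt G (S : Set V) t →
      ∃ m : ℕ, (m : ℝ) ≤ K * ((t : ℝ) / Real.log t) ^ j ∧ ColOn G (S : Set V) m := by
  classical
  obtain ⟨C, hC, hRB⟩ := rb_exists j
  rcases Nat.eq_zero_or_pos j with rfl | hj
  · refine ⟨1, one_pos, ?_⟩
    intro t ht V G S hK hA
    refine ⟨1, by simp, ?_⟩
    apply colOn_indep
    intro u hu v hv hadj
    refine hK {u, v} ?_ ?_
    · rw [Finset.coe_pair]
      rintro w (rfl | rfl) <;> assumption
    · rw [isNClique_iff]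
      refine ⟨?_, by rw [Finset.card_pair hadj.ne]⟩
      rw [Finset.coe_pair, isClique_pair]
      exact fun _ => hadj
  refine ⟨64 * C, by positivity, ?_⟩
  intro t
  induction t using Nat.strong_induction_on with
  | _ t ih =>
    intro ht V G S hK hA
    obtain ⟨hlog, hx1, hlx⟩ := x_facts ht
    have ht' : (2 : ℝ) ≤ t := by exact_mod_cast ht
    set x : ℝ := (t : ℝ) / Real.log t with hx
    have hxj : (1 : ℝ) ≤ x ^ j := one_le_pow₀ hx1
    have hcard : (S.card : ℝ) ≤ C * t * x ^ j := by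
      have := hRB t ht S (G.induce (S : Set V)) (kFree_induce hK) (aLt_induce hA)
      rwa [Fintype.card_coe] at this
    rcases lt_or_ge t 64 with h64 | h64
    · refine ⟨S.card, ?_, colOn_card S⟩
      refine hcard.trans ?_
      have h64' : (t : ℝ) ≤ 64 := by exact_mod_cast h64.le
      calc C * t * x ^ j ≤ C * 64 * x ^ j := by gcongr
        _ = 64 * C * x ^ j := by ring
    · have h64' : (64 : ℝ) ≤ t := by exact_mod_cast h64
      set s : ℕ := (t + 1) / 2 with hs
      have hs1 : t ≤ 2 * s := by omega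
      have hs2 : 2 * s ≤ t + 1 := by omega
      have hs1' : (t : ℝ) ≤ 2 * s := by exact_mod_cast hs1
      have hs2' : (2 : ℝ) * s ≤ t + 1 := by exact_mod_cast hs2
      have hs32 : (32 : ℝ) ≤ s := by linarith
      obtain ⟨S', r, hS', hr, hcol, hA'⟩ := extract G s (by omega) _ S rfl
      obtain ⟨m, hm, hcol'⟩ := ih s (by omega) (by omega) V G S'
        (hK.mono (by exact_mod_cast hS')) hA'
      refine ⟨r + m, ?_, ?_⟩
      · have hr' : (r : ℝ) * s ≤ C * t * x ^ j := by
          have : (r : ℝ) * s ≤ S.card := by exact_mod_cast hr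
          exact this.trans hcard
        have hr'' : (r : ℝ) ≤ 2 * C * x ^ j := by
          have hspos : (0 : ℝ) < s := by linarith
          have h1 : (r : ℝ) * s ≤ (2 * C * x ^ j) * s := by
            refine hr'.trans ?_
            calc C * t * x ^ j ≤ C * (2 * s) * x ^ j := by gcongr
              _ = (2 * C * x ^ j) * s := by ring
          exact le_of_mul_le_mul_right h1 hspos
        -- comparison of s / log s and t / log t
        have hcomp : (s : ℝ) / Real.log s ≤ 3 / 4 * x := by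
          have hlogs : 0 < Real.log s := Real.log_pos (by linarith)
          rw [hx, mul_div_assoc', div_le_div_iff₀ hlogs hlog]
          have hl1 : Real.log t - Real.log 2 ≤ Real.log s := by
            rw [← Real.log_div (by linarith) (by norm_num)]
            apply Real.log_le_log (by linarith)
            linarith
          have hl2 : 6 * Real.log 2 ≤ Real.log t := by
            have : Real.log 64 = 6 * Real.log 2 := by
              rw [show (64 : ℝ) = 2 ^ 6 by norm_num, Real.log_pow]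
              norm_num
            rw [← this]
            exact Real.log_le_log (by norm_num) h64'
          have hl3 : 0 < Real.log 2 := Real.log_pos (by norm_num)
          have e1 : (s : ℝ) * Real.log t ≤ (t + 1) / 2 * Real.log t := by
            apply mul_le_mul_of_nonneg_right _ hlog.le
            linarith
          have e2 : 3 / 4 * (t : ℝ) * (Real.log t - Real.log 2) ≤ 3 / 4 * t * Real.log s := by
            apply mul_le_mul_of_nonneg_left hl1
            positivity
          have e3 : (t + 1) / 2 * Real.log t ≤ 3 / 4 * (t : ℝ) * (Real.log t - Real.log 2) := by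
            have f1 : (t : ℝ) / 8 * Real.log t ≤ ((t : ℝ) / 4 - 1 / 2) * Real.log t := by
              apply mul_le_mul_of_nonneg_right _ hlog.le
              linarith
            have f2 : (t : ℝ) / 8 * (6 * Real.log 2) ≤ (t : ℝ) / 8 * Real.log t := by
              apply mul_le_mul_of_nonneg_left hl2
              positivity
            linarith
          linarith
        have hm' : (m : ℝ) ≤ 64 * C * (3 / 4 * x) ^ j := by
          refine hm.trans ?_
          have : 0 ≤ (s : ℝ) / Real.log s := by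
            apply div_nonneg (by linarith)
            exact (Real.log_pos (by linarith)).le
          gcongr
        have h34 : ((3 : ℝ) / 4) ^ j ≤ 3 / 4 := by
          calc ((3 : ℝ) / 4) ^ j ≤ (3 / 4) ^ 1 :=
                pow_le_pow_of_le_one (by norm_num) (by norm_num) hj
            _ = 3 / 4 := pow_one _
        have hm'' : (m : ℝ) ≤ 48 * C * x ^ j := by
          refine hm'.trans ?_
          rw [mul_pow]
          have : 64 * C * ((3 / 4) ^ j * x ^ j) ≤ 64 * C * (3 / 4 * x ^ j) := by gcongr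
          linarith
        push_cast
        have hCx : 0 ≤ C * x ^ j := by positivity
        linarith
      · refine (hcol.union hcol').mono ?_ le_rfl
        intro v hv
        by_cases hvS : v ∈ (S' : Set V)
        · exact Or.inr hvS
        · exact Or.inl ⟨hv, hvS⟩

/-- Vertices not adjacent to an induced P_4. -/
theorem colOn_p4_split {V : Type*} {G : SimpleGraph V} {S : Set V} {a b c d : V} {m n : ℕ}
    (h : ∀ v ∈ ({a, b, c, d} : Set V), ColOn G {u | u ∈ S ∧ G.Adj v u} m)
    (hW : ColOn G {u | u ∈ S ∧ ¬ G.Adj a u ∧ ¬ G.Adj b u ∧ ¬ G.Adj c u ∧ ¬ G.Adj d u} n) :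
    ColOn G S (4 * m + n) := by
  have h1 := ((((h a (by simp)).union (h b (by simp))).union (h c (by simp))).union
    (h d (by simp))).union hW
  refine h1.mono ?_ (by omega)
  intro u hu
  by_cases ha : G.Adj a u
  · exact Or.inl (Or.inl (Or.inl (Or.inl ⟨hu, ha⟩)))
  by_cases hb : G.Adj b u
  · exact Or.inl (Or.inl (Or.inl (Or.inr ⟨hu, hb⟩)))
  by_cases hc : G.Adj c u
  · exact Or.inl (Or.inl (Or.inr ⟨hu, hc⟩))
  by_cases hd : G.Adj d u
  · exact Or.inl (Or.inr ⟨hu, hd⟩)
  · exact Or.inr ⟨hu, ha, hb, hc, hd⟩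

theorem PFree.aLt_nonnbr {V : Type*} {G : SimpleGraph V} {S : Set V} {l : ℕ} (hP : PFree G S l)
    {a b c d : V} (ha : a ∈ S) (hb : b ∈ S) (hc : c ∈ S) (hd : d ∈ S) (hQ : IsP4 G a b c d) :
    ALt G {u | u ∈ S ∧ ¬ G.Adj a u ∧ ¬ G.Adj b u ∧ ¬ G.Adj c u ∧ ¬ G.Adj d u} l := by
  intro T hT hI
  exact hP a b c d ha hb hc hd hQ T (fun v hv => (hT hv).1) hI (fun v hv => (hT hv).2)

/-- The logarithmic bound for (P_4 + l P_1, K_{j+2})-free graphs. -/
theorem log_bound (j : ℕ) : ∃ K : ℝ, 0 < K ∧ ∀ l : ℕ, 2 ≤ l → ∀ (V : Type) (G : SimpleGraph V)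
    (S : Finset V), KFree G (S : Set V) (j + 2) → PFree G (S : Set V) l →
      ∃ m : ℕ, (m : ℝ) ≤ K * ((l : ℝ) / Real.log l) ^ j ∧ ColOn G (S : Set V) m := by
  classical
  induction j with
  | zero =>
    refine ⟨1, one_pos, ?_⟩
    intro l hl V G S hK hA
    refine ⟨1, by simp, ?_⟩
    apply colOn_indep
    intro u hu v hv hadj
    refine hK {u, v} ?_ ?_
    · rw [Finset.coe_pair]
      rintro w (rfl | rfl) <;> assumption
    · rw [isNClique_iff]
      refine ⟨?_, by rw [Finset.card_pair hadj.ne]⟩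
      rw [Finset.coe_pair, isClique_pair]
      exact fun _ => hadj
  | succ j ih =>
    obtain ⟨K0, hK0, h0⟩ := ih
    obtain ⟨K1, hK1, h1⟩ := chrom_of_alpha (j + 1)
    refine ⟨4 * K0 + K1 + (j + 2), by positivity, ?_⟩
    intro l hl V G S hK hP
    obtain ⟨hlog, hx1, hlx⟩ := x_facts hl
    set x : ℝ := (l : ℝ) / Real.log l with hx
    have hxj : (1 : ℝ) ≤ x ^ (j + 1) := one_le_pow₀ hx1
    have hxjj : x ^ j ≤ x ^ (j + 1) := pow_le_pow_right₀ hx1 (Nat.le_succ j)
    by_cases hN : NoP4 G (S : Set V)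
    · refine ⟨j + 2, ?_, hN.colOn (j + 2) S hK⟩
      push_cast
      have e1 : ((j : ℝ) + 2) * 1 ≤ ((j : ℝ) + 2) * x ^ (j + 1) := by gcongr
      have e2 : 0 ≤ (4 * K0 + K1) * x ^ (j + 1) := by positivity
      linarith
    · unfold NoP4 at hN
      push Not at hN
      obtain ⟨a, b, c, d, ha, hb, hc, hd, hQ⟩ := hN
      -- the neighbourhoods
      have hnb : ∀ v ∈ (S : Set V), ∃ m : ℕ, (m : ℝ) ≤ K0 * x ^ j ∧
          ColOn G {u | u ∈ (S : Set V) ∧ G.Adj v u} m := by
        intro v hv
        have e : {u | u ∈ (S : Set V) ∧ G.Adj v u} = ((S.filter (fun u => G.Adj v u) : Finset V) :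
            Set V) := by ext u; simp
        have := h0 l hl V G (S.filter (fun u => G.Adj v u))
          (by rw [← e]; exact KFree.nbhd hK hv)
          (by rw [← e]; exact hP.mono (fun u hu => hu.1))
        rwa [← e] at this
      have hW : ∃ m : ℕ, (m : ℝ) ≤ K1 * x ^ (j + 1) ∧ ColOn G {u | u ∈ (S : Set V) ∧
          ¬ G.Adj a u ∧ ¬ G.Adj b u ∧ ¬ G.Adj c u ∧ ¬ G.Adj d u} m := by
        have e : {u | u ∈ (S : Set V) ∧ ¬ G.Adj a u ∧ ¬ G.Adj b u ∧ ¬ G.Adj c u ∧ ¬ G.Adj d u} =
            ((S.filter (fun u => ¬ G.Adj a u ∧ ¬ G.Adj b u ∧ ¬ G.Adj c u ∧ ¬ G.Adj d u) :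
              Finset V) : Set V) := by ext u; simp
        have := h1 l hl V G
          (S.filter (fun u => ¬ G.Adj a u ∧ ¬ G.Adj b u ∧ ¬ G.Adj c u ∧ ¬ G.Adj d u))
          (by rw [← e]; exact hK.mono (fun u hu => hu.1))
          (by rw [← e]; exact hP.aLt_nonnbr ha hb hc hd hQ)
        rwa [← e] at this
      obtain ⟨ma, hma, ca⟩ := hnb a ha
      obtain ⟨mb, hmb, cb⟩ := hnb b hb
      obtain ⟨mc, hmc, cc⟩ := hnb c hc
      obtain ⟨md, hmd, cd⟩ := hnb d hd
      obtain ⟨n, hn, cn⟩ := hW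
      set m : ℕ := max (max ma mb) (max mc md) with hm
      have hmle : (m : ℝ) ≤ K0 * x ^ j := by
        rw [hm]
        push_cast
        exact max_le (max_le hma hmb) (max_le hmc hmd)
      have hall : ∀ v ∈ ({a, b, c, d} : Set V), ColOn G {u | u ∈ (S : Set V) ∧ G.Adj v u} m := by
        rintro v (rfl | rfl | rfl | rfl)
        · exact ca.mono subset_rfl (by omega)
        · exact cb.mono subset_rfl (by omega)
        · exact cc.mono subset_rfl (by omega)
        · exact cd.mono subset_rfl (by omega)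
      refine ⟨4 * m + n, ?_, colOn_p4_split hall cn⟩
      push_cast
      have e1 : K0 * x ^ j ≤ K0 * x ^ (j + 1) := by gcongr
      have e2 : 0 ≤ ((j : ℝ) + 2) * x ^ (j + 1) := by positivity
      linarith

end Pool.Agent.Lib.MP_6383d0_co
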