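import Pool.Agent.Lib.MP_6383d0_co.H51.Basic

/-!
Graphs without an induced P_4: a maximal independent set meets every maximal clique, hence
the chromatic number is the clique number.
-/

namespace Pool.Agent.Lib.MP_6383d0_co

open SimpleGraph Finset

variable {V : Type*}

/-- No induced P_4 inside S. -/
def NoP4 (G : SimpleGraph V) (S : Set V) : Prop :=
  ∀ a b c d, a ∈ S → b ∈ S → c ∈ S → d ∈ S → ¬ IsP4 G a b c d

theorem noP4_of_pFree_zero {G : SimpleGraph V} {S : Set V} (h : PFree G S 0) : NoP4 G S := by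
  intro a b c d ha hb hc hd hP
  have := h a b c d ha hb hc hd hP ∅ (by simp) (by simp [SimpleGraph.IsIndepSet])
    (by simp)
  exact absurd this (Nat.not_lt_zero _)

theorem NoP4.mono {G : SimpleGraph V} {S T : Set V} (h : NoP4 G T) (hST : S ⊆ T) : NoP4 G S :=
  fun a b c d ha hb hc hd => h a b c d (hST ha) (hST hb) (hST hc) (hST hd)

/-- There is a maximal independent subset of a finite set. -/
theorem exists_maximal_indep (G : SimpleGraph V) (S : Finset V) :
    ∃ I : Finset V, I ⊆ S ∧ G.IsIndepSet (I : Set V) ∧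
      ∀ v ∈ S, v ∉ I → ∃ u ∈ I, G.Adj v u := by
  classical
  obtain ⟨I, hI, hmax⟩ := Finset.exists_max_image
    (S.powerset.filter (fun I : Finset V => G.IsIndepSet (I : Set V))) Finset.card
    ⟨∅, by simp [SimpleGraph.IsIndepSet]⟩
  rw [Finset.mem_filter, Finset.mem_powerset] at hI
  refine ⟨I, hI.1, hI.2, ?_⟩
  intro v hvS hvI
  by_contra hno
  push Not at hno
  have := hmax (insert v I) (by
    rw [Finset.mem_filter, Finset.mem_powerset]
    refine ⟨Finset.insert_subset hvS hI.1, ?_⟩
    rw [Finset.coe_insert]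
    intro x hx y hy hxy
    rcases hx with rfl | hx
    · rcases hy with rfl | hy
      · exact absurd rfl hxy
      · exact hno y hy
    · rcases hy with rfl | hy
      · exact fun h => hno x hx h.symm
      · exact hI.2 hx hy hxy)
  rw [Finset.card_insert_of_notMem hvI] at this
  omega

/-- In a P_4-free graph a maximal independent set meets every maximum clique. -/
theorem maximal_indep_meets {G : SimpleGraph V} {S I Q : Finset V} (hP : NoP4 G (S : Set V))
    (hIS : I ⊆ S) (hI : G.IsIndepSet (I : Set V)) (hmax : ∀ v ∈ S, v ∉ I → ∃ u ∈ I, G.Adj v u)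
    (hQS : Q ⊆ S) (hQ : G.IsClique (Q : Set V)) (hQne : Q.Nonempty)
    (hQmax : ∀ s ∈ S, s ∉ Q → ∃ q ∈ Q, ¬ G.Adj s q) : ∃ v, v ∈ Q ∧ v ∈ I := by
  classical
  by_contra hdis
  push Not at hdis
  obtain ⟨q0, hq0⟩ := hQne
  obtain ⟨s0, hs0, _⟩ := hmax q0 (hQS hq0) (hdis q0 hq0)
  obtain ⟨s, hs, hsmax⟩ := Finset.exists_max_image I
    (fun s => (Q.filter (fun q => G.Adj s q)).card) ⟨s0, hs0⟩
  have hsQ : s ∉ Q := fun h => hdis s h hs
  obtain ⟨q, hq, hsq⟩ := hQmax s (hIS hs) hsQ
  obtain ⟨s', hs', hqs'⟩ := hmax q (hQS hq) (hdis q hq)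
  have hne : s ≠ s' := fun h => hsq (h ▸ hqs'.symm)
  have hcard := hsmax s' hs'
  -- some q' adjacent to s but not to s'
  have hex : ∃ q' ∈ Q, G.Adj s q' ∧ ¬ G.Adj s' q' := by
    by_contra hno
    push Not at hno
    have hss : (Q.filter (fun q => G.Adj s q)) ⊂ (Q.filter (fun q => G.Adj s' q)) := by
      rw [Finset.ssubset_iff_of_subset]
      · exact ⟨q, by simp [hq, hqs'.symm], by simp [hsq]⟩
      · intro x hx
        rw [Finset.mem_filter] at hx ⊢
        exact ⟨hx.1, hno x hx.1 hx.2⟩
    have := Finset.card_lt_card hss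
    omega
  obtain ⟨q', hq', hsq', hs'q'⟩ := hex
  have hqq' : q' ≠ q := fun h => hsq (h ▸ hsq')
  refine hP s q' q s' (hIS hs) (hQS hq') (hQS hq) (hIS hs')
    ⟨hsq', hQ hq' hq hqq', hqs', hsq, hI hs hs' hne, fun h => hs'q' h.symm⟩

/-- A P_4-free graph without a clique of size k+1 is k-colourable. -/
theorem NoP4.colOn {G : SimpleGraph V} : ∀ (k : ℕ) (S : Finset V), NoP4 G (S : Set V) →
    KFree G (S : Set V) (k + 1) → ColOn G (S : Set V) k := by
  classical
  intro k
  induction k with
  | zero =>
    intro S _ hK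
    apply colOn_empty
    rw [Set.eq_empty_iff_forall_notMem]
    intro v hv
    refine hK {v} (by simpa using hv) ?_
    rw [isNClique_iff]
    exact ⟨by simp, by simp⟩
  | succ k ih =>
    intro S hP hK
    obtain ⟨I, hIS, hI, hmax⟩ := exists_maximal_indep G S
    have h1 : ColOn G ((S \ I : Finset V) : Set V) k := by
      apply ih
      · exact hP.mono (by simpa using Finset.sdiff_subset)
      · intro Q hQ hQc
        have hQS : Q ⊆ S := fun x hx => (Finset.mem_sdiff.1 (hQ hx)).1
        obtain ⟨v, hvQ, hvI⟩ := maximal_indep_meets (Q := Q) hP hIS hI hmax hQS hQc.isClique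
          (Finset.card_pos.1 (by rw [hQc.card_eq]; omega)) (by
            intro s hs hsQ
            by_contra hno
            push Not at hno
            refine hK (insert s Q) ?_ (hQc.insert hno)
            intro x hx
            rw [Finset.coe_insert] at hx
            rcases hx with rfl | hx
            · exact hs
            · exact hQS hx)
        exact (Finset.mem_sdiff.1 (hQ hvQ)).2 hvI
    have h2 : ColOn G (I : Set V) 1 := by
      apply colOn_indep
      intro u hu v hv huv
      exact hI hu hv huv.ne huv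
    refine (h1.union h2).mono ?_ le_rfl
    intro x hx
    by_cases hxI : x ∈ I
    · exact Or.inr hxI
    · exact Or.inl (by simpa using ⟨hx, hxI⟩)

/-- One vertex split: neighbours and non-neighbours. If the vertex is isolated in the second
part, and the non-neighbours are m-colourable with m at least 1, we may add the vertex. -/
theorem colOn_split {G : SimpleGraph V} {S : Set V} {v : V} {m n : ℕ} (hn : 1 ≤ n)
    (h1 : ColOn G {u | u ∈ S ∧ G.Adj v u} m)
    (h2 : ColOn G {u | u ∈ S ∧ u ≠ v ∧ ¬ G.Adj v u} n) : ColOn G S (m + n) := by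
  classical
  have h3 : ColOn G {u | u ∈ S ∧ ¬ G.Adj v u} n := by
    obtain ⟨f, hf, hf'⟩ := h2
    refine ⟨fun u => if u = v then 0 else f u, ?_, ?_⟩
    · intro u hu
      by_cases h : u = v
      · simp only [h, if_true]
        omega
      · simp only [h, if_false]
        exact hf u ⟨hu.1, h, hu.2⟩
    · intro u hu w hw huw
      have hu1 : u ≠ v := by
        rintro rfl
        exact hw.2 huw
      have hw1 : w ≠ v := by
        rintro rfl
        exact hu.2 huw.symm
      simp only [hu1, hw1, if_false]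
      exact hf' u ⟨hu.1, hu1, hu.2⟩ w ⟨hw.1, hw1, hw.2⟩ huw
  refine (h1.union h3).mono ?_ le_rfl
  intro u hu
  by_cases h : G.Adj v u
  · exact Or.inl ⟨hu, h⟩
  · exact Or.inr ⟨hu, h⟩

end Pool.Agent.Lib.MP_6383d0_co
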