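import Mathlib

/-!
Definitions for MP_6383d0_co.
-/

namespace Pool.Agent.Lib.MP_6383d0_co

open SimpleGraph

/-- The chromatic numbers of the finite graphs that have no induced P_4 + l P_1 and no K_k. -/
def chromSet (k l : ℕ) : Set ℕ :=
  {c | ∃ (n : ℕ) (G : SimpleGraph (Fin n)),
    ¬ (pathGraph 4 ⊕g (⊥ : SimpleGraph (Fin l))).IsIndContained G ∧ G.CliqueFree k ∧
      G.chromaticNumber = c}

/-- M_k(l), the largest chromatic number of a (P_4 + l P_1, K_k)-free graph. -/
noncomputable def M (k l : ℕ) : ℕ := sSup (chromSet k l)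

/-- The chromatic numbers of the finite K_k-free graphs with independence number at most a. -/
def alphaSet (k a : ℕ) : Set ℕ :=
  {c | ∃ (n : ℕ) (G : SimpleGraph (Fin n)),
    G.CliqueFree k ∧ G.indepNum ≤ a ∧ G.chromaticNumber = c}

/-- F_k(a), the largest chromatic number of a K_k-free graph with independence number
at most a. -/
noncomputable def F (k a : ℕ) : ℕ := sSup (alphaSet k a)

end Pool.Agent.Lib.MP_6383d0_co
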