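import Pool.Agent.Lib.MP_6383d0_co.H51.Sampling
import Pool.Agent.Lib.MP_916c87_co.Final

/-!
Off-diagonal Ramsey bounds (Ajtai-Komlos-Szemeredi) and the chromatic number of K_k-free graphs
with small independence number.
-/

namespace Pool.Agent.Lib.MP_6383d0_co

open SimpleGraph Finset

/-- Johansson for triangle-free graphs of bounded maximum degree. -/
theorem johansson : ∃ C : ℝ, 0 < C ∧ ∀ d : ℕ, 2 ≤ d → ∀ (V : Type) [Fintype V] (G : SimpleGraph V),
    G.CliqueFree 3 → (∀ v : V, (G.neighborSet v).ncard ≤ d) →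
    ∃ k : ℕ, G.Colorable k ∧ (k : ℝ) ≤ C * (d : ℝ) / Real.log (d : ℝ) := by
  obtain ⟨C, hC⟩ := Pool.Agent.Lib.MP_916c87_co.main (1 / 2) (by norm_num)
  refine ⟨max C 1, by positivity, ?_⟩
  intro d hd V _ G h3 hdeg
  have hd' : (2 : ℝ) ≤ d := by exact_mod_cast hd
  have hA : ∀ S : Finset V, S.Nonempty →
      ∃ v ∈ S, (G.neighborSet v ∩ (S : Set V)).ncard ≤ d := by
    rintro S ⟨v, hv⟩
    refine ⟨v, hv, ?_⟩
    exact (Set.ncard_le_ncard Set.inter_subset_left (Set.toFinite _)).trans (hdeg v)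
  have hB : ∀ v : V, ((G.neighborSet v).ncard : ℝ) ≤ Real.exp ((d : ℝ) ^ (1 - 1 / 2 : ℝ)) := by
    intro v
    have h1 : ((G.neighborSet v).ncard : ℝ) ≤ d := by exact_mod_cast hdeg v
    refine h1.trans ?_
    set x : ℝ := (d : ℝ) ^ (1 - 1 / 2 : ℝ) with hx
    have hx0 : 0 ≤ x := by positivity
    have hxx : x ^ 2 = d := by
      rw [hx, ← Real.rpow_natCast, ← Real.rpow_mul (by positivity)]
      norm_num
    rw [← hxx]
    have h2 : 1 + x / 4 ≤ Real.exp (x / 4) := by
      have := Real.add_one_le_exp (x / 4)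
      linarith
    have h3 : (1 + x / 4) ^ 4 ≤ Real.exp (x / 4) ^ 4 := by gcongr
    have h4 : Real.exp (x / 4) ^ 4 = Real.exp x := by
      rw [← Real.exp_nat_mul]
      congr 1
      push_cast
      ring
    rw [h4] at h3
    refine le_trans ?_ h3
    have h5 : x ≤ (1 + x / 4) ^ 2 := by nlinarith [sq_nonneg (1 - x / 4)]
    calc x ^ 2 ≤ ((1 + x / 4) ^ 2) ^ 2 := by gcongr
      _ = (1 + x / 4) ^ 4 := by ring
  obtain ⟨k, hk, hk'⟩ := hC d hd V G h3 hA hB
  · refine ⟨k, hk, hk'.trans ?_⟩
    have hlog : 0 < Real.log d := Real.log_pos (by linarith)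
    apply div_le_div_of_nonneg_right _ hlog.le
    exact mul_le_mul_of_nonneg_right (le_max_left _ _) (by linarith)
variable {V : Type}

/-- A coloured set contains a large independent set. -/
theorem ColOn.exists_large {G : SimpleGraph V} {S : Finset V} {k : ℕ}
    (h : ColOn G (S : Set V) k) :
    ∃ T : Finset V, T ⊆ S ∧ G.IsIndepSet (T : Set V) ∧ S.card ≤ k * T.card := by
  classical
  obtain ⟨f, hf, hf'⟩ := h
  rcases Nat.eq_zero_or_pos k with rfl | hk
  · have : S = ∅ := by
      rw [Finset.eq_empty_iff_forall_notMem]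
      intro x hx
      exact absurd (hf x hx) (Nat.not_lt_zero _)
    exact ⟨∅, by simp, by simp [SimpleGraph.IsIndepSet], by simp [this]⟩
  · obtain ⟨i, hi, hmax⟩ := Finset.exists_max_image (Finset.range k)
      (fun i => (S.filter (fun v => f v = i)).card) ⟨0, by simpa using hk⟩
    refine ⟨S.filter (fun v => f v = i), Finset.filter_subset _ _, ?_, ?_⟩
    · intro u hu v hv _ huv
      simp only [Finset.coe_filter, Set.mem_ofPred_eq] at hu hv
      exact hf' u hu.1 v hv.1 huv (hu.2.trans hv.2.symm)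
    · rw [Finset.card_eq_sum_card_fiberwise (f := f) (t := Finset.range k)
        (fun x hx => by simpa using hf x hx)]
      calc ∑ b ∈ Finset.range k, (S.filter (fun v => f v = b)).card
          ≤ ∑ _b ∈ Finset.range k, (S.filter (fun v => f v = i)).card :=
            Finset.sum_le_sum (fun b hb => hmax b hb)
        _ = _ := by rw [Finset.sum_const, Finset.card_range, smul_eq_mul]

theorem kFree_induce {G : SimpleGraph V} {S : Set V} {k : ℕ} (h : KFree G S k) :
    KFree (G.induce S) Set.univ k := by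
  intro T _ hC
  refine h (T.map (Function.Embedding.subtype _)) ?_ ?_
  · intro x hx
    simp only [Finset.coe_map, Function.Embedding.coe_subtype, Set.mem_image,
      Subtype.exists, exists_and_right, exists_eq_right] at hx
    exact hx.1
  · rw [isNClique_iff] at hC ⊢
    refine ⟨?_, by rw [Finset.card_map]; exact hC.2⟩
    intro x hx y hy hxy
    simp only [Finset.coe_map, Function.Embedding.coe_subtype, Set.mem_image] at hx hy
    obtain ⟨x', hx', rfl⟩ := hx
    obtain ⟨y', hy', rfl⟩ := hy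
    exact hC.1 hx' hy' (fun h => hxy (h ▸ rfl))

theorem aLt_induce {G : SimpleGraph V} {S : Set V} {t : ℕ} (h : ALt G S t) :
    ALt (G.induce S) Set.univ t := by
  intro T _ hI
  have := h (T.map (Function.Embedding.subtype _)) ?_ ?_
  · rwa [Finset.card_map] at this
  · intro x hx
    simp only [Finset.coe_map, Function.Embedding.coe_subtype, Set.mem_image,
      Subtype.exists, exists_and_right, exists_eq_right] at hx
    exact hx.1
  · intro x hx y hy hxy
    simp only [Finset.coe_map, Function.Embedding.coe_subtype, Set.mem_image] at hx hy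
    obtain ⟨x', hx', rfl⟩ := hx
    obtain ⟨y', hy', rfl⟩ := hy
    exact hI hx' hy' (fun h => hxy (h ▸ rfl))

/-- Independent sets in graphs with maximum degree D and codegrees at most a. -/
theorem indep_of_codeg : ∃ c : ℝ, 0 < c ∧ ∀ (D a : ℕ), 1 ≤ a → a ≤ D →
    ∀ (V : Type) [Fintype V] (G : SimpleGraph V),
      (∀ v, {u | G.Adj v u}.ncard ≤ D) →
      (∀ u v, G.Adj u v → {w | G.Adj u w ∧ G.Adj v w}.ncard ≤ a) →
      ∃ T : Finset V, G.IsIndepSet (T : Set V) ∧
        c * Fintype.card V * Real.log ((D : ℝ) / a) ≤ T.card * D := by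
  classical
  obtain ⟨C, hCpos, hC⟩ := johansson
  refine ⟨1 / (48 * C), by positivity, ?_⟩
  intro D a ha haD V _ G hdeg hcod
  have ha' : (1 : ℝ) ≤ a := by exact_mod_cast ha
  have haD' : (a : ℝ) ≤ D := by exact_mod_cast haD
  have hD' : (1 : ℝ) ≤ D := ha'.trans haD'
  rcases haD.eq_or_lt with heq | hlt
  · refine ⟨∅, by simp [SimpleGraph.IsIndepSet], ?_⟩
    rw [heq, div_self (by positivity)]
    simp
  have hlt' : (a : ℝ) < D := by exact_mod_cast hlt
  -- choice of q
  set s : ℝ := Real.sqrt (4 * D * a) with hs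
  have hs2 : s ^ 2 = 4 * D * a := Real.sq_sqrt (by positivity)
  have hs0 : 0 ≤ s := Real.sqrt_nonneg _
  have hs1 : 1 ≤ s := by
    have : (1 : ℝ) ≤ s ^ 2 := by rw [hs2]; nlinarith
    nlinarith
  set q : ℕ := ⌈s⌉₊ with hq
  have hqs : s ≤ q := Nat.le_ceil s
  have hqs' : (q : ℝ) ≤ 2 * s := by
    have := Nat.ceil_lt_add_one hs0
    linarith
  have hqpos : (0 : ℝ) < q := by linarith
  have hq1 : 1 ≤ q := by exact_mod_cast hqpos
  have hq2 : 4 * D * a ≤ q ^ 2 := by
    have : (4 * D * a : ℝ) ≤ q ^ 2 := by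
      rw [← hs2]
      gcongr
    exact_mod_cast this
  obtain ⟨S, hScard, hS3, hSdeg⟩ := sampling V G D a q (by omega) hq1 hq2 hdeg hcod
  set d : ℕ := ⌊(4 * D : ℝ) / q⌋₊ + 2 with hd
  have hratio : Real.sqrt (D / a) ≤ 4 * D / q := by
    rw [le_div_iff₀ hqpos]
    calc Real.sqrt (D / a) * q ≤ Real.sqrt (D / a) * (2 * s) := by gcongr
      _ = 2 * (Real.sqrt (D / a) * Real.sqrt (4 * D * a)) := by rw [hs]; ring
      _ = 2 * Real.sqrt (D / a * (4 * D * a)) := by
          rw [Real.sqrt_mul (show (0 : ℝ) ≤ (D : ℝ) / a by positivity)]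
      _ = 2 * Real.sqrt ((2 * D) ^ 2) := by
          congr 2
          field_simp
          ring
      _ = 4 * D := by
          rw [Real.sqrt_sq (by positivity)]
          ring
  have hratio1 : 1 ≤ Real.sqrt (D / a) := by
    rw [Real.one_le_sqrt, le_div_iff₀ (by linarith)]
    linarith
  have hd_le : (d : ℝ) ≤ 12 * D / q := by
    have h1 : (⌊(4 * D : ℝ) / q⌋₊ : ℝ) ≤ 4 * D / q := Nat.floor_le (by positivity)
    have h2 : (d : ℝ) = ⌊(4 * D : ℝ) / q⌋₊ + 2 := by rw [hd]; push_cast; ring
    have h3 : (12 * D : ℝ) / q = 3 * (4 * D / q) := by ring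
    rw [h2, h3]
    linarith
  have hd_ge : Real.sqrt (D / a) ≤ d := by
    have h1 : (4 * D : ℝ) / q < ⌊(4 * D : ℝ) / q⌋₊ + 1 := Nat.lt_floor_add_one _
    have h2 : (d : ℝ) = ⌊(4 * D : ℝ) / q⌋₊ + 2 := by rw [hd]; push_cast; ring
    rw [h2]
    linarith
  have hlogpos : 0 < Real.log (D / a) := by
    apply Real.log_pos
    rw [lt_div_iff₀ (by linarith)]
    linarith
  have hlogd : Real.log (D / a) / 2 ≤ Real.log d := by
    rw [← Real.log_sqrt (by positivity)]
    exact Real.log_le_log (by linarith) hd_ge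
  have hA : (G.induce (S : Set V)).CliqueFree 3 := by
    intro T hT
    exact kFree_induce hS3 T (Set.subset_univ _) hT
  have hB : ∀ v, ((G.induce (S : Set V)).neighborSet v).ncard ≤ d := by
    rintro ⟨v, hv⟩
    have h1 := hSdeg v hv
    have h2 : ((G.induce (S : Set V)).neighborSet ⟨v, hv⟩).ncard ≤
        {u | u ∈ S ∧ G.Adj v u}.ncard :=
      Set.ncard_le_ncard_of_injOn (s := ((G.induce (S : Set V)).neighborSet ⟨v, hv⟩))
        (t := {u | u ∈ S ∧ G.Adj v u}) (fun u => (u : V))
        (by rintro ⟨u, hu⟩ huv; exact ⟨hu, huv⟩)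
        (by intro x _ y _ hxy; exact Subtype.ext hxy) (Set.toFinite _)
    refine h2.trans ?_
    have h3 : (({u | u ∈ S ∧ G.Adj v u}.ncard : ℕ) : ℝ) ≤ 4 * D / q := by
      rw [le_div_iff₀ hqpos]
      exact_mod_cast h1
    have h4 := Nat.le_floor h3
    omega
  obtain ⟨k, hk, hk'⟩ := hC d (by omega) (S : Set V) (G.induce (S : Set V)) hA hB
  · obtain ⟨T, hTS, hTI, hT⟩ := (colOn_of_induce hk).exists_large
    refine ⟨T, hTI, ?_⟩
    have hT' : (S.card : ℝ) ≤ k * T.card := by exact_mod_cast hT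
    have hlogd0 : 0 < Real.log d := by linarith
    have hk2 : (k : ℝ) ≤ 24 * C * D / (q * Real.log (D / a)) := by
      refine hk'.trans ?_
      rw [div_le_div_iff₀ hlogd0 (by positivity)]
      calc C * d * (q * Real.log (D / a)) ≤ C * (12 * D / q) * (q * (2 * Real.log d)) := by
            gcongr
            linarith
        _ = 24 * C * D * Real.log d := by
            field_simp
            ring
    have h1 : (Fintype.card V : ℝ) ≤ 2 * q * (24 * C * D / (q * Real.log (D / a)) * T.card) := by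
      refine hScard.trans ?_
      gcongr
      exact hT'.trans (by gcongr)
    have h2 : 2 * q * (24 * C * D / (q * Real.log (D / a)) * T.card) =
        48 * C * D * T.card / Real.log (D / a) := by
      field_simp
      ring
    rw [h2, le_div_iff₀ hlogpos] at h1
    rw [one_div, inv_mul_eq_div, div_mul_eq_mul_div, div_le_iff₀ (by positivity)]
    linarith

end Pool.Agent.Lib.MP_6383d0_co
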