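import Pool.Agent.Lib.MP_6383d0_co.H51.Basic

/-!
A random induced subgraph of a graph with small codegrees is nearly triangle-free.
-/

namespace Pool.Agent.Lib.MP_6383d0_co

open SimpleGraph Finset

section Count

variable {V : Type} [Fintype V] [DecidableEq V]

/-- The number of functions which are equal to z on A. -/
theorem card_const_on (q : ℕ) (z : Fin q) (A : Finset V) :
    ((Finset.univ.filter (fun f : V → Fin q => ∀ v ∈ A, f v = z)).card : ℝ) * (q : ℝ) ^ A.card =
      (q : ℝ) ^ (Fintype.card V) := by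
  have h1 : (Finset.univ.filter (fun f : V → Fin q => ∀ v ∈ A, f v = z)) =
      Fintype.piFinset (fun v => if v ∈ A then ({z} : Finset (Fin q)) else Finset.univ) := by
    ext f
    simp only [Finset.mem_filter, Finset.mem_univ, true_and, Fintype.mem_piFinset]
    constructor
    · intro h v
      by_cases hv : v ∈ A
      · simp [hv, h v hv]
      · simp [hv]
    · intro h v hv
      have := h v
      simpa [hv] using this
  rw [h1, Fintype.card_piFinset]
  have h2 : (q : ℝ) ^ A.card = ∏ v : V, (if v ∈ A then (q : ℝ) else 1) := by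
    rw [Finset.prod_ite_mem, Finset.univ_inter, Finset.prod_const]
  rw [h2]
  push_cast
  rw [← Finset.prod_mul_distrib]
  have h3 : ∀ v : V, (((if v ∈ A then ({z} : Finset (Fin q)) else Finset.univ).card : ℕ) : ℝ) *
      (if v ∈ A then (q : ℝ) else 1) = q := by
    intro v
    by_cases hv : v ∈ A
    · simp [hv]
    · simp [hv]
  rw [Finset.prod_congr rfl (fun v _ => h3 v), Finset.prod_const, Finset.card_univ]

end Count

theorem sampling (V : Type) [Fintype V] (G : SimpleGraph V) (D a q : ℕ) (hD : 1 ≤ D)
    (hq : 1 ≤ q) (hq2 : 4 * D * a ≤ q ^ 2)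
    (hdeg : ∀ v, {u | G.Adj v u}.ncard ≤ D)
    (hcod : ∀ u v, G.Adj u v → {w | G.Adj u w ∧ G.Adj v w}.ncard ≤ a) :
    ∃ S : Finset V, (Fintype.card V : ℝ) ≤ 2 * q * S.card ∧ KFree G (S : Set V) 3 ∧
      ∀ v ∈ S, {u | u ∈ S ∧ G.Adj v u}.ncard * q ≤ 4 * D := by
  classical
  have hqpos : (0 : ℝ) < q := by exact_mod_cast hq
  let z : Fin q := ⟨0, hq⟩
  set n : ℕ := Fintype.card V with hn
  set N : ℝ := (q : ℝ) ^ n with hN
  have hNpos : 0 < N := by positivity
  -- finsets of pairs and triples
  let E : Finset (V × V) := Finset.univ.filter (fun p => G.Adj p.1 p.2)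
  let R : Finset (V × V × V) :=
    Finset.univ.filter (fun p => G.Adj p.1 p.2.1 ∧ G.Adj p.1 p.2.2 ∧ G.Adj p.2.1 p.2.2)
  have hE : (E.card : ℝ) ≤ n * D := by
    have h1 : E.card = ((Finset.univ : Finset V).sigma
        (fun v => Finset.univ.filter (fun u => G.Adj v u))).card := by
      symm
      apply Finset.card_bij (fun x _ => (x.1, x.2))
      · rintro ⟨x, y⟩ h
        simpa [E] using h
      · rintro ⟨x, y⟩ _ ⟨x', y'⟩ _ h
        simp only [Prod.mk.injEq] at h
        obtain ⟨rfl, rfl⟩ := h
        rfl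
      · rintro ⟨x, y⟩ h
        exact ⟨⟨x, y⟩, by simpa [E] using h, rfl⟩
    have h2 : E.card ≤ n * D := by
      rw [h1, Finset.card_sigma]
      calc ∑ v : V, (Finset.univ.filter (fun u => G.Adj v u)).card ≤ ∑ _v : V, D := by
            apply Finset.sum_le_sum
            intro v _
            have h := hdeg v
            have e : {u | G.Adj v u} = ((Finset.univ.filter (fun u => G.Adj v u) : Finset V) :
                Set V) := by ext u; simp
            rw [e, Set.ncard_coe_finset] at h
            exact h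
        _ = n * D := by rw [Finset.sum_const, Finset.card_univ, smul_eq_mul]
    exact_mod_cast h2
  have hR : (R.card : ℝ) ≤ n * D * a := by
    have h1 : R.card = (E.sigma
        (fun p => Finset.univ.filter (fun w => G.Adj p.1 w ∧ G.Adj p.2 w))).card := by
      symm
      apply Finset.card_bij (fun x _ => (x.1.1, x.1.2, x.2))
      · rintro ⟨⟨x, y⟩, w⟩ h
        simpa [R, E] using h
      · rintro ⟨⟨x, y⟩, w⟩ _ ⟨⟨x', y'⟩, w'⟩ _ h
        simp only [Prod.mk.injEq] at h
        obtain ⟨rfl, rfl, rfl⟩ := h
        rfl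
      · rintro ⟨x, y, w⟩ h
        exact ⟨⟨⟨x, y⟩, w⟩, by simpa [R, E] using h, rfl⟩
    have h2 : (R.card : ℝ) ≤ E.card * a := by
      have : R.card ≤ E.card * a := by
        rw [h1, Finset.card_sigma]
        calc ∑ p ∈ E, (Finset.univ.filter (fun w => G.Adj p.1 w ∧ G.Adj p.2 w)).card
            ≤ ∑ _p ∈ E, a := by
              apply Finset.sum_le_sum
              intro p hp
              have h := hcod p.1 p.2 (Finset.mem_filter.1 hp).2
              have e : {w | G.Adj p.1 w ∧ G.Adj p.2 w} =
                ((Finset.univ.filter (fun w => G.Adj p.1 w ∧ G.Adj p.2 w) : Finset V) :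
                Set V) := by ext u; simp
              rw [e, Set.ncard_coe_finset] at h
              exact h
          _ = E.card * a := by rw [Finset.sum_const, smul_eq_mul]
      exact_mod_cast this
    exact h2.trans (mul_le_mul_of_nonneg_right hE (Nat.cast_nonneg _))
  -- counting functions
  have c1 : ∀ v : V, ((Finset.univ.filter (fun f : V → Fin q => f v = z)).card : ℝ) = N / q := by
    intro v
    have := card_const_on q z ({v} : Finset V)
    simp only [Finset.mem_singleton, forall_eq, Finset.card_singleton, pow_one] at this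
    rw [eq_div_iff hqpos.ne']
    exact this
  have c2 : ∀ p ∈ E, ((Finset.univ.filter (fun f : V → Fin q => f p.1 = z ∧ f p.2 = z)).card : ℝ)
      = N / q ^ 2 := by
    intro p hp
    have hne : p.1 ≠ p.2 := (Finset.mem_filter.1 hp).2.ne
    have := card_const_on q z ({p.1, p.2} : Finset V)
    rw [Finset.card_pair hne] at this
    simp only [Finset.mem_insert, Finset.mem_singleton, forall_eq_or_imp, forall_eq] at this
    rw [eq_div_iff (by positivity)]
    exact this
  have c3 : ∀ p ∈ R, ((Finset.univ.filter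
      (fun f : V → Fin q => f p.1 = z ∧ f p.2.1 = z ∧ f p.2.2 = z)).card : ℝ) = N / q ^ 3 := by
    intro p hp
    have hp' := (Finset.mem_filter.1 hp).2
    have := card_const_on q z ({p.1, p.2.1, p.2.2} : Finset V)
    rw [Finset.card_eq_three.2 ⟨p.1, p.2.1, p.2.2, hp'.1.ne, hp'.2.1.ne, hp'.2.2.ne, rfl⟩] at this
    simp only [Finset.mem_insert, Finset.mem_singleton, forall_eq_or_imp, forall_eq] at this
    rw [eq_div_iff (by positivity)]
    exact this
  -- the random sets
  let Sf : (V → Fin q) → Finset V := fun f => Finset.univ.filter (fun v => f v = z)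
  let Ef : (V → Fin q) → Finset (V × V) := fun f => E.filter (fun p => f p.1 = z ∧ f p.2 = z)
  let Rf : (V → Fin q) → Finset (V × V × V) :=
    fun f => R.filter (fun p => f p.1 = z ∧ f p.2.1 = z ∧ f p.2.2 = z)
  have swap : ∀ {α : Type} (P : Finset α) (Q : (V → Fin q) → α → Prop)
      [∀ f, DecidablePred (Q f)] [∀ x, DecidablePred (fun f => Q f x)],
      (∑ f : V → Fin q, ((P.filter (Q f)).card : ℝ)) =
        ∑ x ∈ P, ((Finset.univ.filter (fun f : V → Fin q => Q f x)).card : ℝ) := by
    intro α P Q _ _
    have e1 : ∀ f : V → Fin q, ((P.filter (Q f)).card : ℝ) =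
        ∑ x ∈ P, (if Q f x then (1 : ℝ) else 0) := by
      intro f
      rw [Finset.card_filter]
      push_cast
      rfl
    have e2 : ∀ x : α, ((Finset.univ.filter (fun f : V → Fin q => Q f x)).card : ℝ) =
        ∑ f : V → Fin q, (if Q f x then (1 : ℝ) else 0) := by
      intro x
      rw [Finset.card_filter]
      push_cast
      apply Finset.sum_congr rfl
      intro f _
      congr
    rw [Finset.sum_congr rfl (fun f _ => e1 f), Finset.sum_comm]
    apply Finset.sum_congr rfl
    intro x _
    rw [e2]
  have X1 : ∑ f : V → Fin q, ((Sf f).card : ℝ) = n * (N / q) := by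
    rw [swap Finset.univ (fun f v => f v = z), Finset.sum_congr rfl (fun v _ => c1 v),
      Finset.sum_const, Finset.card_univ, nsmul_eq_mul]
  have X2 : ∑ f : V → Fin q, ((Ef f).card : ℝ) ≤ n * D * (N / q ^ 2) := by
    rw [swap E (fun f p => f p.1 = z ∧ f p.2 = z), Finset.sum_congr rfl (fun p hp => c2 p hp),
      Finset.sum_const, nsmul_eq_mul]
    exact mul_le_mul_of_nonneg_right hE (by positivity)
  have X3 : ∑ f : V → Fin q, ((Rf f).card : ℝ) ≤ n * D * a * (N / q ^ 3) := by
    rw [swap R (fun f p => f p.1 = z ∧ f p.2.1 = z ∧ f p.2.2 = z),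
      Finset.sum_congr rfl (fun p hp => c3 p hp), Finset.sum_const, nsmul_eq_mul]
    exact mul_le_mul_of_nonneg_right hR (by positivity)
  have hDpos : (0 : ℝ) < D := by exact_mod_cast hD
  -- a good function
  obtain ⟨f, hf⟩ : ∃ f : V → Fin q,
      (n : ℝ) / (2 * q) ≤ (Sf f).card - (Rf f).card - q / (4 * D) * (Ef f).card := by
    by_contra hno
    push Not at hno
    have hlt : ∑ f : V → Fin q,
        (((Sf f).card : ℝ) - (Rf f).card - q / (4 * D) * (Ef f).card) <
          ∑ _f : V → Fin q, (n : ℝ) / (2 * q) := by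
      apply Finset.sum_lt_sum_of_nonempty
      · exact ⟨fun _ => z, Finset.mem_univ _⟩
      · intro f _
        exact hno f
    rw [Finset.sum_const, Finset.card_univ, Finset.sum_sub_distrib, Finset.sum_sub_distrib,
      ← Finset.mul_sum, X1] at hlt
    have hcardF : Fintype.card (V → Fin q) = q ^ n := by
      rw [Fintype.card_fun, Fintype.card_fin]
    rw [hcardF, nsmul_eq_mul] at hlt
    push_cast at hlt
    rw [← hN] at hlt
    have hq2' : (4 : ℝ) * D * a ≤ q ^ 2 := by exact_mod_cast hq2
    have k1 : n * D * a * (N / q ^ 3) ≤ n * N / (4 * q) := by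
      rw [mul_div_assoc', div_le_div_iff₀ (by positivity) (by positivity)]
      have : n * D * a * N * (4 * q) = (4 * D * a) * (n * N * q) := by ring
      rw [this]
      calc (4 * D * a) * (n * N * q) ≤ q ^ 2 * (n * N * q) :=
            mul_le_mul_of_nonneg_right hq2' (by positivity)
        _ = n * N * q ^ 3 := by ring
    have k2 : q / (4 * D) * (n * D * (N / q ^ 2)) = n * N / (4 * q) := by
      field_simp
    have k3 : (q : ℝ) / (4 * D) * ∑ f : V → Fin q, ((Ef f).card : ℝ) ≤ n * N / (4 * q) := by
      rw [← k2]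
      exact mul_le_mul_of_nonneg_left X2 (by positivity)
    have k4 : (n : ℝ) * (N / q) = n * N / (4 * q) + n * N / (4 * q) + N * (n / (2 * q)) := by
      field_simp
      ring
    linarith
  -- the final set
  let B1 : Finset V := (Sf f).filter (fun u => ∃ v w, (u, v, w) ∈ Rf f)
  let B2 : Finset V := (Sf f).filter (fun u => 4 * D < ((Sf f).filter (fun v => G.Adj u v)).card * q)
  have hB1 : B1.card ≤ (Rf f).card := by
    have : B1 ⊆ (Rf f).image (fun p => p.1) := by
      intro u hu
      obtain ⟨_, v, w, h⟩ := Finset.mem_filter.1 hu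
      exact Finset.mem_image.2 ⟨_, h, rfl⟩
    exact (Finset.card_le_card this).trans Finset.card_image_le
  have hB2 : (B2.card : ℝ) ≤ q / (4 * D) * (Ef f).card := by
    have h1 : B2.card * (4 * D) ≤ (Ef f).card * q := by
      calc B2.card * (4 * D) = ∑ _u ∈ B2, (4 * D) := by rw [Finset.sum_const, smul_eq_mul]
        _ ≤ ∑ u ∈ B2, ((Sf f).filter (fun v => G.Adj u v)).card * q := by
            apply Finset.sum_le_sum
            intro u hu
            exact (Finset.mem_filter.1 hu).2.le
        _ ≤ ∑ u ∈ Sf f, ((Sf f).filter (fun v => G.Adj u v)).card * q := by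
            apply Finset.sum_le_sum_of_subset
            exact Finset.filter_subset _ _
        _ = (∑ u ∈ Sf f, ((Sf f).filter (fun v => G.Adj u v)).card) * q := by
            rw [Finset.sum_mul]
        _ = (Ef f).card * q := by
            congr 1
            rw [← Finset.card_sigma]
            apply Finset.card_bij (fun x _ => (x.1, x.2))
            · rintro ⟨x, y⟩ h
              simp only [Finset.mem_sigma, Finset.mem_filter, Sf, Ef, E, Finset.mem_univ,
                true_and] at h ⊢
              exact ⟨h.2.2, h.1, h.2.1⟩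
            · rintro ⟨x, y⟩ _ ⟨x', y'⟩ _ h
              simp only [Prod.mk.injEq] at h
              obtain ⟨rfl, rfl⟩ := h
              rfl
            · rintro ⟨x, y⟩ h
              simp only [Finset.mem_filter, Ef, E, Finset.mem_univ, true_and] at h
              exact ⟨⟨x, y⟩, by simp [Sf, h.1, h.2.1, h.2.2], rfl⟩
    have h2 : (B2.card : ℝ) * (4 * D) ≤ (Ef f).card * q := by exact_mod_cast h1
    rw [div_mul_eq_mul_div, le_div_iff₀ (by positivity)]
    linarith
  refine ⟨Sf f \ (B1 ∪ B2), ?_, ?_, ?_⟩
  · have h1 : (Sf f).card ≤ (Sf f \ (B1 ∪ B2)).card + (B1.card + B2.card) := by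
      calc (Sf f).card ≤ (Sf f \ (B1 ∪ B2)).card + (B1 ∪ B2).card := by
            have := Finset.le_card_sdiff (B1 ∪ B2) (Sf f)
            omega
        _ ≤ _ := by
            have := Finset.card_union_le B1 B2
            omega
    have h1' : ((Sf f).card : ℝ) ≤ (Sf f \ (B1 ∪ B2)).card + (B1.card + B2.card) := by
      exact_mod_cast h1
    have hB1' : (B1.card : ℝ) ≤ (Rf f).card := by exact_mod_cast hB1
    have h2 : (n : ℝ) / (2 * q) ≤ (Sf f \ (B1 ∪ B2)).card := by linarith
    rw [div_le_iff₀ (by positivity)] at h2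
    linarith
  · intro T hT hC
    rw [is3Clique_iff] at hC
    obtain ⟨u, v, w, huv, huw, hvw, rfl⟩ := hC
    have hu : u ∈ Sf f \ (B1 ∪ B2) := hT (by simp)
    have hv : v ∈ Sf f \ (B1 ∪ B2) := hT (by simp)
    have hw : w ∈ Sf f \ (B1 ∪ B2) := hT (by simp)
    rw [Finset.mem_sdiff, Finset.mem_union] at hu hv hw
    apply hu.2
    left
    have fu := (Finset.mem_filter.1 hu.1).2
    have fv := (Finset.mem_filter.1 hv.1).2
    have fw := (Finset.mem_filter.1 hw.1).2
    refine Finset.mem_filter.2 ⟨hu.1, v, w, ?_⟩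
    exact Finset.mem_filter.2 ⟨Finset.mem_filter.2 ⟨Finset.mem_univ _, huv, huw, hvw⟩, fu, fv, fw⟩
  · intro v hv
    rw [Finset.mem_sdiff, Finset.mem_union] at hv
    have h1 : ¬ (4 * D < ((Sf f).filter (fun u => G.Adj v u)).card * q) := by
      intro h
      exact hv.2 (Or.inr (Finset.mem_filter.2 ⟨hv.1, h⟩))
    push Not at h1
    refine le_trans (Nat.mul_le_mul_right _ ?_) h1
    rw [← Set.ncard_coe_finset]
    apply Set.ncard_le_ncard
    · rintro u ⟨hu, huv⟩
      rw [Finset.mem_sdiff] at hu
      simp only [Finset.coe_filter, Set.mem_ofPred_eq]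
      exact ⟨hu.1, huv⟩
    · exact Finset.finite_toSet _

end Pool.Agent.Lib.MP_6383d0_co
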