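import Pool.Agent.Lib.MP_6383d0_co.H51.Chrom
import Pool.Agent.Lib.MP_6383d0_co.H51.Defs

/-!
The sandwich F_k(l+1) ≤ M_k(l) ≤ 4 M_{k-1}(l) + F_k(l-1) and its consequences.
-/

namespace Pool.Agent.Lib.MP_6383d0_co

open SimpleGraph Finset

theorem aLt_univ_iff {n : ℕ} {G : SimpleGraph (Fin n)} {a : ℕ} :
    G.indepNum ≤ a ↔ ALt G Set.univ (a + 1) := by
  constructor
  · intro h T _ hT
    have := hT.card_le_indepNum
    omega
  · intro h
    obtain ⟨s, hs⟩ := G.exists_isNIndepSet_indepNum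
    have := h s (Set.subset_univ _) hs.isIndepSet
    rw [hs.card_eq] at this
    omega

/-- If all graphs in a class are m-colourable then the chromatic numbers are bounded. -/
theorem bddAbove_chromSet (k l : ℕ) (hk : 2 ≤ k) : BddAbove (chromSet k l) := by
  obtain ⟨K, _, hK⟩ := log_bound (k - 2)
  refine ⟨⌈K * (((l + 2 : ℕ) : ℝ) / Real.log ((l + 2 : ℕ) : ℝ)) ^ (k - 2)⌉₊, ?_⟩
  rintro c ⟨n, G, h1, h2, h3⟩
  have hP : PFree G Set.univ (l + 2) := by
    intro a b c d ha hb hc hd hQ T hT hI hN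
    have := pFree_univ h1 a b c d ha hb hc hd hQ T hT hI hN
    omega
  have hk2 : k - 2 + 2 = k := by omega
  obtain ⟨m, hm, hcol⟩ := hK (l + 2) (by omega) (Fin n) G Finset.univ
    (by rw [hk2, Finset.coe_univ]; exact kFree_univ h2) (by rw [Finset.coe_univ]; exact hP)
  rw [Finset.coe_univ, colOn_univ_iff] at hcol
  have h4 : (c : ℕ∞) ≤ m := by
    rw [← h3]
    exact hcol.chromaticNumber_le
  have h5 : c ≤ m := by exact_mod_cast h4
  have h6 : (m : ℝ) ≤ ⌈K * (((l + 2 : ℕ) : ℝ) / Real.log ((l + 2 : ℕ) : ℝ)) ^ (k - 2)⌉₊ :=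
    hm.trans (Nat.le_ceil _)
  have h7 : m ≤ ⌈K * (((l + 2 : ℕ) : ℝ) / Real.log ((l + 2 : ℕ) : ℝ)) ^ (k - 2)⌉₊ := by
    exact_mod_cast h6
  exact h5.trans h7

theorem bddAbove_alphaSet (k a : ℕ) (hk : 2 ≤ k) : BddAbove (alphaSet k a) := by
  obtain ⟨B, hB⟩ := bddAbove_chromSet k a hk
  refine ⟨B, ?_⟩
  rintro c ⟨n, G, h1, h2, h3⟩
  apply hB
  refine ⟨n, G, free_of_alt ?_, h1, h3⟩
  rw [aLt_univ_iff] at h2
  intro T hT hI
  have := h2 T hT hI
  omega

/-- Transfer to a finite type. -/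
theorem exists_fin {W : Type} [Fintype W] (H : SimpleGraph W) :
    ∃ (n : ℕ) (G : SimpleGraph (Fin n)), Nonempty (H ≃g G) :=
  ⟨Fintype.card W, H.overFin rfl, ⟨H.overFinIso rfl⟩⟩

theorem colorable_toNat {n : ℕ} (G : SimpleGraph (Fin n)) :
    ∃ c : ℕ, G.chromaticNumber = c ∧ G.Colorable c := by
  have h1 := G.colorable_chromaticNumber_of_fintype
  refine ⟨ENat.toNat G.chromaticNumber, ?_, h1⟩
  rw [ENat.natCast_toNat]
  exact chromaticNumber_ne_top_iff_exists.2 ⟨_, h1⟩

theorem colorable_M {k l : ℕ} (hk : 2 ≤ k) {W : Type} [Fintype W] {H : SimpleGraph W}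
    (h1 : ¬ (P4l l).IsIndContained H) (h2 : H.CliqueFree k) : H.Colorable (M k l) := by
  obtain ⟨n, G, ⟨φ⟩⟩ := exists_fin H
  obtain ⟨c, hc, hcol⟩ := colorable_toNat G
  have hmem : c ∈ chromSet k l := by
    refine ⟨n, G, ?_, ?_, hc⟩
    · rintro ⟨ψ⟩
      exact h1 ⟨φ.symm.toEmbedding.comp ψ⟩
    · exact h2.comap (IsIndContained.isContained ⟨φ.symm.toEmbedding⟩)
  have hle : c ≤ M k l := le_csSup (bddAbove_chromSet k l hk) hmem
  exact (Colorable.of_hom φ.toHom hcol).mono hle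

theorem colorable_F {k a : ℕ} (hk : 2 ≤ k) {W : Type} [Fintype W] {H : SimpleGraph W}
    (h1 : ALt H Set.univ (a + 1)) (h2 : H.CliqueFree k) : H.Colorable (F k a) := by
  classical
  obtain ⟨n, G, ⟨φ⟩⟩ := exists_fin H
  obtain ⟨c, hc, hcol⟩ := colorable_toNat G
  have hmem : c ∈ alphaSet k a := by
    refine ⟨n, G, ?_, ?_, hc⟩
    · exact h2.comap (IsIndContained.isContained ⟨φ.symm.toEmbedding⟩)
    · rw [aLt_univ_iff]
      intro T _ hT
      have := h1 (T.map φ.symm.toEquiv.toEmbedding) (Set.subset_univ _) ?_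
      · rwa [Finset.card_map] at this
      · intro x hx y hy hxy
        simp only [Finset.coe_map, Set.mem_image] at hx hy
        obtain ⟨x', hx', rfl⟩ := hx
        obtain ⟨y', hy', rfl⟩ := hy
        intro hadj
        have := φ.symm.map_adj_iff.1 hadj
        exact hT hx' hy' this.ne this
  have hle : c ≤ F k a := le_csSup (bddAbove_alphaSet k a hk) hmem
  exact (Colorable.of_hom φ.toHom hcol).mono hle

/-- Induced subgraphs of P4l-free graphs are P4l-free. -/
theorem free_induce {W : Type} {H : SimpleGraph W} {l : ℕ} (h : ¬ (P4l l).IsIndContained H)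
    (S : Set W) : ¬ (P4l l).IsIndContained (H.induce S) := by
  rintro ⟨ψ⟩
  exact h ⟨(Embedding.induce S).comp ψ⟩

theorem cliqueFree_induce {W : Type} {H : SimpleGraph W} {k : ℕ} {S : Set W}
    (h : KFree H S k) : (H.induce S).CliqueFree k :=
  fun T => kFree_induce h T (Set.subset_univ _)

theorem complete_mem {k l : ℕ} (j : ℕ) (hj : j < k) : j ∈ chromSet k l := by
  refine ⟨j, ⊤, ?_, ?_, ?_⟩
  · rintro ⟨ψ⟩
    have h1 : (⊤ : SimpleGraph (Fin j)).Adj (ψ (Sum.inl 0)) (ψ (Sum.inl 2)) := by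
      rw [top_adj]
      intro h
      have := ψ.injective h
      simp at this
    have h2 := ψ.map_adj_iff.1 h1
    simp [SimpleGraph.sum, pathGraph_adj] at h2
  · exact cliqueFree_of_card_lt (by simpa using hj)
  · rw [chromaticNumber_top, Fintype.card_fin]

theorem complete_mem_alpha {k a : ℕ} (ha : 1 ≤ a) (j : ℕ) (hj : j < k) : j ∈ alphaSet k a := by
  refine ⟨j, ⊤, ?_, ?_, ?_⟩
  · exact cliqueFree_of_card_lt (by simpa using hj)
  · rw [aLt_univ_iff]
    intro T _ hT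
    have : T.card ≤ 1 := by
      rw [Finset.card_le_one]
      intro x hx y hy
      by_contra hne
      exact hT hx hy hne (by rwa [top_adj])
    omega
  · rw [chromaticNumber_top, Fintype.card_fin]

/-- Lower bound: small independence number. -/
theorem F_le_M (k l : ℕ) (hk : 2 ≤ k) : F k (l + 1) ≤ M k l := by
  apply csSup_le_csSup (bddAbove_chromSet k l hk)
  · exact ⟨0, complete_mem_alpha (by omega) 0 (by omega)⟩
  · rintro c ⟨n, G, h1, h2, h3⟩
    refine ⟨n, G, free_of_alt ?_, h1, h3⟩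
    rw [aLt_univ_iff] at h2
    intro T hT hI
    have := h2 T hT hI
    omega

theorem F_mono (k a : ℕ) (hk : 2 ≤ k) : F k a ≤ F (k + 1) a := by
  rcases (alphaSet k a).eq_empty_or_nonempty with h | h
  · unfold F
    rw [h]
    simp
  · apply csSup_le_csSup (bddAbove_alphaSet (k + 1) a (by omega)) h
    rintro c ⟨n, G, h1, h2, h3⟩
    exact ⟨n, G, h1.mono (by omega), h2, h3⟩

theorem M_ge (k l : ℕ) (hk : 2 ≤ k) : k - 1 ≤ M k l :=
  le_csSup (bddAbove_chromSet k l hk) (complete_mem (k - 1) (by omega))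

/-- Upper bound. -/
theorem M_le (k l : ℕ) (hk : 2 ≤ k) (hl : 1 ≤ l) : M (k + 1) l ≤ 4 * M k l + F (k + 1) (l - 1) := by
  classical
  apply csSup_le ⟨0, complete_mem 0 (by omega)⟩
  rintro c ⟨n, G, h1, h2, h3⟩
  suffices hcol : G.Colorable (4 * M k l + F (k + 1) (l - 1)) by
    have h4 := hcol.chromaticNumber_le
    rw [h3] at h4
    exact_mod_cast h4
  by_cases hN : NoP4 G ((Finset.univ : Finset (Fin n)) : Set (Fin n))
  · have := hN.colOn k Finset.univ (by rw [Finset.coe_univ]; exact kFree_univ h2)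
    rw [Finset.coe_univ, colOn_univ_iff] at this
    apply this.mono
    have := M_ge k l hk
    omega
  · unfold NoP4 at hN
    push Not at hN
    obtain ⟨a, b, c', d, ha, hb, hc, hd, hQ⟩ := hN
    rw [← colOn_univ_iff]
    apply colOn_p4_split (a := a) (b := b) (c := c') (d := d)
    · intro v _
      apply colOn_of_induce
      apply colorable_M hk (free_induce h1 _)
      exact cliqueFree_induce (KFree.nbhd (kFree_univ h2) (Set.mem_univ v))
    · apply colOn_of_induce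
      apply colorable_F (by omega)
      · apply aLt_induce
        rw [Nat.sub_add_cancel hl]
        exact (pFree_univ h1).aLt_nonnbr (Set.mem_univ _) (Set.mem_univ _) (Set.mem_univ _)
          (Set.mem_univ _) hQ
      · exact cliqueFree_induce ((kFree_univ h2).mono (Set.subset_univ _))

theorem M_two (l : ℕ) : M 2 l ≤ 1 := by
  apply csSup_le ⟨0, complete_mem 0 (by omega)⟩
  rintro c ⟨n, G, h1, h2, h3⟩
  have hcol : G.Colorable 1 := by
    rw [← colOn_univ_iff]
    apply colOn_indep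
    intro u _ v _ hadj
    exact (cliqueFree_two.1 h2 ▸ hadj : (⊥ : SimpleGraph (Fin n)).Adj u v)
  have h4 := hcol.chromaticNumber_le
  rw [h3] at h4
  exact_mod_cast h4

/-- M and F agree up to a constant factor. -/
theorem M_le_F (k l : ℕ) (hk : 2 ≤ k) (hl : 2 ≤ l) :
    3 * M k l ≤ (4 ^ (k - 1) - 1) * F k (l - 1) := by
  induction k, hk using Nat.le_induction with
  | base =>
    have h1 := M_two l
    have h2 : 1 ≤ F 2 (l - 1) :=
      le_csSup (bddAbove_alphaSet 2 (l - 1) le_rfl) (complete_mem_alpha (by omega) 1 (by omega))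
    norm_num
    omega
  | succ k hk ih =>
    have h1 := M_le k l hk (by omega)
    have h2 := F_mono k (l - 1) hk
    have h3 : k + 1 - 1 = (k - 1) + 1 := by omega
    rw [h3, pow_succ]
    have h4 : 1 ≤ 4 ^ (k - 1) := Nat.one_le_pow _ _ (by norm_num)
    obtain ⟨p, hp⟩ : ∃ p, 4 ^ (k - 1) = p + 1 := ⟨4 ^ (k - 1) - 1, by omega⟩
    rw [hp] at ih ⊢
    have h5 : (p + 1) * 4 - 1 = 4 * p + 3 := by omega
    rw [h5]
    rw [Nat.add_sub_cancel] at ih
    have h6 : p * F k (l - 1) ≤ p * F (k + 1) (l - 1) := Nat.mul_le_mul_left _ h2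
    have h7 : (4 * p + 3) * F (k + 1) (l - 1) =
        4 * (p * F (k + 1) (l - 1)) + 3 * F (k + 1) (l - 1) := by ring
    rw [h7]
    omega

theorem M_log (k : ℕ) (hk : 2 ≤ k) : ∃ C : ℝ, ∀ l : ℕ, 2 ≤ l →
    (M k l : ℝ) ≤ C * ((l : ℝ) / Real.log l) ^ (k - 2) := by
  obtain ⟨K, _, hK⟩ := log_bound (k - 2)
  refine ⟨K, ?_⟩
  intro l hl
  have hk2 : k - 2 + 2 = k := by omega
  have hmem : M k l ∈ chromSet k l :=
    Nat.sSup_mem ⟨0, complete_mem 0 (by omega)⟩ (bddAbove_chromSet k l hk)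
  obtain ⟨n, G, h1, h2, h3⟩ := hmem
  obtain ⟨m, hm, hcol⟩ := hK l hl (Fin n) G Finset.univ
    (by rw [hk2, Finset.coe_univ]; exact kFree_univ h2)
    (by rw [Finset.coe_univ]; exact pFree_univ h1)
  rw [Finset.coe_univ, colOn_univ_iff] at hcol
  have h4 : ((M k l : ℕ) : ℕ∞) ≤ m := by
    rw [← h3]
    exact hcol.chromaticNumber_le
  have h5 : M k l ≤ m := by exact_mod_cast h4
  have h6 : (M k l : ℝ) ≤ m := by exact_mod_cast h5
  exact h6.trans hm

end Pool.Agent.Lib.MP_6383d0_co
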