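import Pool.Agent.Lib.MP_6383d0_co.H51.Sandwich

/-!
Explicit bounds for all k and l, and the values M_3(2) = 3, M_3(3) = 4.
-/

namespace Pool.Agent.Lib.MP_6383d0_co

open SimpleGraph Finset

variable {V : Type*}

theorem indep_of_kFree_two {G : SimpleGraph V} {S : Set V} (hK : KFree G S 2) :
    ∀ u ∈ S, ∀ v ∈ S, ¬ G.Adj u v := by
  classical
  intro u hu v hv hadj
  refine hK {u, v} ?_ ?_
  · rw [Finset.coe_pair]
    rintro w (rfl | rfl) <;> assumption
  · rw [isNClique_iff]
    refine ⟨?_, by rw [Finset.card_pair hadj.ne]⟩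
    rw [Finset.coe_pair, isClique_pair]
    exact fun _ => hadj

/-- One recursion step. -/
theorem colOn_step {G : SimpleGraph V} {S : Finset V} {k l m n : ℕ} (hn : 1 ≤ n)
    (hK : KFree G (S : Set V) (k + 1)) (hP : PFree G (S : Set V) (l + 1))
    (h1 : ∀ T : Finset V, KFree G (T : Set V) k → PFree G (T : Set V) (l + 1) →
      ColOn G (T : Set V) m)
    (h2 : ∀ T : Finset V, KFree G (T : Set V) (k + 1) → PFree G (T : Set V) l →
      ColOn G (T : Set V) n) : ColOn G (S : Set V) (m + n) := by
  classical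
  rcases S.eq_empty_or_nonempty with rfl | ⟨v, hv⟩
  · exact colOn_empty (by simp) _
  have e1 : {u | u ∈ (S : Set V) ∧ G.Adj v u} = ((S.filter (fun u => G.Adj v u) : Finset V) :
      Set V) := by ext u; simp
  have e2 : {u | u ∈ (S : Set V) ∧ u ≠ v ∧ ¬ G.Adj v u} =
      ((S.filter (fun u => u ≠ v ∧ ¬ G.Adj v u) : Finset V) : Set V) := by ext u; simp
  apply colOn_split hn (v := v)
  · rw [e1]
    apply h1
    · rw [← e1]; exact KFree.nbhd hK hv
    · rw [← e1]; exact hP.mono (fun u hu => hu.1)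
  · rw [e2]
    apply h2
    · rw [← e2]; exact hK.mono (fun u hu => hu.1)
    · rw [← e2]; exact hP.nonnbhd hv

/-- The binomial bound. -/
theorem bin_bound {G : SimpleGraph V} : ∀ (j l : ℕ) (S : Finset V), KFree G (S : Set V) (j + 2) →
    PFree G (S : Set V) l → ColOn G (S : Set V) ((j + l + 1).choose j) := by
  intro j
  induction j with
  | zero =>
    intro l S hK _
    rw [Nat.choose_zero_right]
    exact colOn_indep (indep_of_kFree_two hK)
  | succ j ihj =>
    intro l
    induction l with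
    | zero =>
      intro S hK hP
      have h1 : (j + 1 + 0 + 1).choose (j + 1) = j + 2 := by
        rw [show j + 1 + 0 + 1 = (j + 1) + 1 by ring, Nat.choose_succ_self_right]
      rw [h1]
      exact (noP4_of_pFree_zero hP).colOn (j + 2) S hK
    | succ l ihl =>
      intro S hK hP
      have h1 : (j + 1 + (l + 1) + 1).choose (j + 1) =
          (j + (l + 1) + 1).choose j + (j + 1 + l + 1).choose (j + 1) := by
        rw [show j + 1 + (l + 1) + 1 = (j + l + 2) + 1 by ring, Nat.choose_succ_succ]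
        congr 2 <;> ring
      rw [h1]
      exact colOn_step (Nat.choose_pos (by omega)) hK hP
        (fun T hT hT' => ihj (l + 1) T hT hT') (fun T hT hT' => ihl T hT hT')

/-- The improved bound function, for k = j + 3 and l + 2. -/
def gb : ℕ → ℕ → ℕ
  | 0, l => l + 3
  | j + 1, 0 => gb j 0 + (j + 4).choose (j + 2)
  | j + 1, l + 1 => gb j (l + 1) + gb (j + 1) l

theorem gb_pos : ∀ j l, 1 ≤ gb j l := by
  intro j
  induction j with
  | zero => intro l; rw [gb]; omega
  | succ j ih =>
    intro l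
    cases l with
    | zero => rw [gb]; have := ih 0; omega
    | succ l => rw [gb]; have := ih (l + 1); omega

theorem gb_eq : ∀ j l, gb j l + (j + l).choose j = (j + l + 4).choose (j + 1) := by
  intro j
  induction j with
  | zero =>
    intro l
    rw [gb]
    simp
  | succ j ihj =>
    intro l
    induction l with
    | zero =>
      rw [gb]
      have h0 := ihj 0
      simp only [Nat.add_zero, Nat.choose_self] at h0 ⊢
      have e0 : (j + 1 + 4).choose (j + 1 + 1) = (j + 4).choose (j + 1) + (j + 4).choose (j + 2) := by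
        rw [show j + 1 + 4 = (j + 4) + 1 by ring]
        exact Nat.choose_succ_succ (j + 4) (j + 1)
      rw [e0]
      omega
    | succ l ihl =>
      rw [gb]
      have h0 := ihj (l + 1)
      have e1 : (j + 1 + (l + 1)).choose (j + 1) =
          (j + (l + 1)).choose j + (j + 1 + l).choose (j + 1) := by
        rw [show j + 1 + (l + 1) = (j + l + 1) + 1 by ring, Nat.choose_succ_succ]
        congr 2 <;> ring
      have e2 : (j + 1 + (l + 1) + 4).choose (j + 1 + 1) =
          (j + (l + 1) + 4).choose (j + 1) + (j + 1 + l + 4).choose (j + 1 + 1) := by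
        rw [show j + 1 + (l + 1) + 4 = (j + l + 5) + 1 by ring, Nat.choose_succ_succ]
        congr 2 <;> ring
      rw [e1, e2]
      omega

theorem gb_bound {G : SimpleGraph V} : ∀ (j l : ℕ) (S : Finset V), KFree G (S : Set V) (j + 3) →
    PFree G (S : Set V) (l + 2) → ColOn G (S : Set V) (gb j l) := by
  intro j
  induction j with
  | zero =>
    intro l
    induction l with
    | zero =>
      intro S hK hP
      have h0 : gb 0 0 = 3 := by rw [gb]
      rw [h0]
      exact threeCol S hK hP
    | succ l ihl =>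
      intro S hK hP
      have h1 : gb 0 (l + 1) = 1 + gb 0 l := by rw [gb, gb]; ring
      rw [h1]
      exact colOn_step (gb_pos 0 l) hK hP
        (fun T hT _ => colOn_indep (indep_of_kFree_two hT)) (fun T hT hT' => ihl T hT hT')
  | succ j ihj =>
    intro l
    induction l with
    | zero =>
      intro S hK hP
      rw [gb]
      refine colOn_step (Nat.choose_pos (by omega)) hK hP (fun T hT hT' => ihj 0 T hT hT')
        (fun T hT hT' => ?_)
      have := bin_bound (j + 2) 1 T hT hT'
      rwa [show j + 2 + 1 + 1 = j + 4 by ring] at this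
    | succ l ihl =>
      intro S hK hP
      rw [gb]
      exact colOn_step (gb_pos _ _) hK hP (fun T hT hT' => ihj (l + 1) T hT hT')
        (fun T hT hT' => ihl T hT hT')

theorem M_le_of {k l m : ℕ} (h : ∀ (n : ℕ) (G : SimpleGraph (Fin n)),
    KFree G ((Finset.univ : Finset (Fin n)) : Set (Fin n)) k →
    PFree G ((Finset.univ : Finset (Fin n)) : Set (Fin n)) l →
    ColOn G ((Finset.univ : Finset (Fin n)) : Set (Fin n)) m) (hk : 1 ≤ k) : M k l ≤ m := by
  apply csSup_le ⟨0, complete_mem 0 (by omega)⟩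
  rintro c ⟨n, G, h1, h2, h3⟩
  have hcol := h n G (by rw [Finset.coe_univ]; exact kFree_univ h2)
    (by rw [Finset.coe_univ]; exact pFree_univ h1)
  rw [Finset.coe_univ, colOn_univ_iff] at hcol
  have h4 := hcol.chromaticNumber_le
  rw [h3] at h4
  exact_mod_cast h4

theorem M_le_binom (k l : ℕ) (hk : 2 ≤ k) : M k l ≤ (k + l - 1).choose (k - 2) := by
  obtain ⟨j, rfl⟩ : ∃ j, k = j + 2 := ⟨k - 2, by omega⟩
  apply M_le_of _ (by omega)
  intro n G hK hP
  have := bin_bound j l Finset.univ hK hP
  rwa [show j + 2 + l - 1 = j + l + 1 by omega, show j + 2 - 2 = j by omega]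

theorem M_le_improved (k l : ℕ) (hk : 3 ≤ k) (hl : 2 ≤ l) :
    M k l + (k + l - 5).choose (k - 3) ≤ (k + l - 1).choose (k - 2) := by
  obtain ⟨j, rfl⟩ : ∃ j, k = j + 3 := ⟨k - 3, by omega⟩
  obtain ⟨l, rfl⟩ : ∃ l', l = l' + 2 := ⟨l - 2, by omega⟩
  have h1 : M (j + 3) (l + 2) ≤ gb j l := by
    apply M_le_of _ (by omega)
    intro n G hK hP
    exact gb_bound j l Finset.univ hK hP
  have h2 := gb_eq j l
  rw [show j + 3 + (l + 2) - 5 = j + l by omega, show j + 3 - 3 = j by omega,
    show j + 3 + (l + 2) - 1 = j + l + 4 by omega, show j + 3 - 2 = j + 1 by omega]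
  omega

/-! ### Lower bounds -/

theorem c5_mem : 3 ∈ chromSet 3 2 := by
  refine ⟨5, cycleGraph 5, ?_, ?_, ?_⟩
  · rintro ⟨φ⟩
    have := Fintype.card_le_of_injective φ φ.injective
    simp at this
  · intro T hT
    rw [is3Clique_iff] at hT
    obtain ⟨a, b, c, hab, hac, hbc, -⟩ := hT
    revert hab hac hbc
    revert a b c
    decide
  · exact chromaticNumber_cycleGraph_of_odd 5 (by norm_num) (by decide)

/-- The circulant graph on 13 vertices with differences 1, 5, 8, 12. -/
def C13 : SimpleGraph (Fin 13) where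
  Adj i j := i - j = 1 ∨ i - j = 5 ∨ i - j = 8 ∨ i - j = 12
  symm := ⟨by decide⟩
  loopless := ⟨by decide⟩

instance : DecidableRel C13.Adj := fun i j =>
  inferInstanceAs (Decidable (i - j = 1 ∨ i - j = 5 ∨ i - j = 8 ∨ i - j = 12))

theorem c13_indep : ∀ a b : Fin 13, (a < b ∧ ¬ C13.Adj a b) → ∀ c : Fin 13,
    (b < c ∧ ¬ C13.Adj a c ∧ ¬ C13.Adj b c) → ∀ d : Fin 13,
    (c < d ∧ ¬ C13.Adj a d ∧ ¬ C13.Adj b d ∧ ¬ C13.Adj c d) → ∀ e : Fin 13,
    ¬ (d < e ∧ ¬ C13.Adj a e ∧ ¬ C13.Adj b e ∧ ¬ C13.Adj c e ∧ ¬ C13.Adj d e) := by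
  decide

theorem c13_alt : ALt C13 Set.univ 5 := by
  intro T _ hT
  by_contra hlt
  push Not at hlt
  obtain ⟨T', hT', hcard⟩ := Finset.exists_subset_card_eq hlt
  let f := T'.orderEmbOfFin hcard
  have hf : ∀ i, f i ∈ T := fun i => hT' (Finset.orderEmbOfFin_mem T' hcard i)
  have hm : ∀ i j : Fin 5, i < j → f i < f j := fun i j h => f.strictMono h
  have hn : ∀ i j : Fin 5, i < j → ¬ C13.Adj (f i) (f j) := fun i j h =>
    hT (hf i) (hf j) (hm i j h).ne
  exact c13_indep (f 0) (f 1) ⟨hm _ _ (by decide), hn _ _ (by decide)⟩ (f 2)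
    ⟨hm _ _ (by decide), hn _ _ (by decide), hn _ _ (by decide)⟩ (f 3)
    ⟨hm _ _ (by decide), hn _ _ (by decide), hn _ _ (by decide), hn _ _ (by decide)⟩ (f 4)
    ⟨hm _ _ (by decide), hn _ _ (by decide), hn _ _ (by decide), hn _ _ (by decide),
      hn _ _ (by decide)⟩

theorem c13_cliqueFree : C13.CliqueFree 3 := by
  intro T hT
  rw [is3Clique_iff] at hT
  obtain ⟨a, b, c, hab, hac, hbc, -⟩ := hT
  have key : ∀ a b : Fin 13, C13.Adj a b → ∀ c, C13.Adj a c → ¬ C13.Adj b c := by decide
  exact key a b hab c hac hbc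

theorem c13_not_three : ¬ C13.Colorable 3 := by
  intro h
  rw [← colOn_univ_iff, ← Finset.coe_univ] at h
  obtain ⟨T, _, hT, hcard⟩ := h.exists_large
  have := c13_alt T (Set.subset_univ _) hT
  rw [Finset.card_univ, Fintype.card_fin] at hcard
  omega

theorem M_three_three_ge : 4 ≤ M 3 3 := by
  obtain ⟨c, hc, hcol⟩ := colorable_toNat C13
  have h1 : 4 ≤ c := by
    by_contra hlt
    push Not at hlt
    exact c13_not_three (hcol.mono (by omega))
  have h2 : c ∈ chromSet 3 3 :=
    ⟨13, C13, free_of_alt c13_alt, c13_cliqueFree, hc⟩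
  exact h1.trans (le_csSup (bddAbove_chromSet 3 3 (by norm_num)) h2)

theorem M_three_two : M 3 2 = 3 := by
  apply le_antisymm
  · have := M_le_improved 3 2 le_rfl le_rfl
    simp at this
    omega
  · exact le_csSup (bddAbove_chromSet 3 2 (by norm_num)) c5_mem

theorem M_three_three : M 3 3 = 4 := by
  apply le_antisymm
  · have := M_le_improved 3 3 le_rfl (by norm_num)
    simp at this
    omega
  · exact M_three_three_ge

end Pool.Agent.Lib.MP_6383d0_co
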